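import Pool.Agent.Lib.MP_79a223_al.Fwd2

/-!
# The groups of the classification are primitive, with an affine 2-transitive suborbit
-/

open Equiv

namespace Pool.Agent.Lib.MP_79a223_al

section

variable {Ω D : Type} {p : ℕ}

/-- the permutation `v ↦ s v + w`, transported by `e` -/
noncomputable def aff (e : Ω ≃ Quo D p) (s : Perm D) (w : Quo D p) : Perm Ω where
  toFun x := e.symm (act p s (e x) + w)
  invFun x := e.symm (act p s⁻¹ (e x - w))
  left_inv x := by simp [act_inv_self]
  right_inv x := by simp [act_self_inv]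

lemma aff_apply (e : Ω ≃ Quo D p) (s : Perm D) (w : Quo D p) (x : Ω) : e (aff e s w x) = act p s (e x) + w :=
  e.apply_symm_apply _

lemma eq_aff (e : Ω ≃ Quo D p) (s : Perm D) (w : Quo D p) (g : Perm Ω) (h : ∀ x, e (g x) = act p s (e x) + w) :
    g = aff e s w := by
  ext x
  apply e.injective
  rw [h, aff_apply]

lemma aff_mul (e : Ω ≃ Quo D p) (s t : Perm D) (v w : Quo D p) :
    aff e s v * aff e t w = aff e (s * t) (act p s w + v) := by
  apply eq_aff
  intro x
  rw [Perm.mul_apply, aff_apply, aff_apply, map_add, act_mul, add_assoc]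

lemma aff_one (e : Ω ≃ Quo D p) : aff e (1 : Perm D) 0 = 1 := by
  refine (eq_aff e 1 0 1 fun x => ?_).symm
  rw [act_one, add_zero, Perm.one_apply]

lemma aff_inj [Fintype D] [Fact p.Prime] (hp : ¬ p ∣ Fintype.card D) (e : Ω ≃ Quo D p) {s t : Perm D} {v w : Quo D p}
    (h : aff e s v = aff e t w) : s = t ∧ v = w := by
  have h1 : ∀ x, act p s x + v = act p t x + w := by
    intro x
    have := aff_apply e s v (e.symm x)
    rw [h, aff_apply, Equiv.apply_symm_apply] at this
    exact this.symm
  have h2 : v = w := by simpa using h1 0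
  refine ⟨?_, h2⟩
  have h3 : t⁻¹ * s = 1 := by
    apply act_faithful hp
    intro x
    have h4 := h1 x
    rw [h2] at h4
    rw [act_mul, add_right_cancel h4, act_inv_self]
  exact (inv_mul_eq_one.1 h3).symm

end

theorem backward {Ω : Type} (G : Subgroup (Perm Ω)) (hG : IsAffineExample G) :
    MulAction.IsPreprimitive G Ω ∧ RegularUniqueMinimalNormal G ∧
      ∃ α, TwoTransitiveSuborbit G α ∧ HasSolubleNormal (MulAction.stabilizer G α) := by
  classical
  obtain ⟨D, iD, H, p, hp, hpD, h2, hs, e, he⟩ := hG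
  have : Fact p.Prime := ⟨hp⟩
  have hmem : ∀ s ∈ H, ∀ w, aff e s w ∈ G := fun s hs w => (he _).2 ⟨s, hs, w, aff_apply e s w⟩
  have hdec : ∀ g ∈ G, ∃ s ∈ H, ∃ w, g = aff e s w := by
    intro g hg
    obtain ⟨s, hs, w, h⟩ := (he g).1 hg
    exact ⟨s, hs, w, eq_aff e s w g h⟩
  let T : Quo D p → G := fun w => ⟨aff e 1 w, hmem 1 H.one_mem w⟩
  let Q : H → G := fun s => ⟨aff e s 0, hmem s s.2 0⟩
  have hTQ : ∀ g : G, ∃ w s, g = T w * Q s := by
    rintro ⟨g, hg⟩
    obtain ⟨s, hs, w, rfl⟩ := hdec g hg
    refine ⟨w, ⟨s, hs⟩, Subtype.ext ?_⟩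
    show aff e s w = aff e 1 w * aff e s 0
    rw [aff_mul, one_mul, act_one, zero_add]
  have hTT : ∀ v w, T v * T w = T (v + w) := by
    intro v w
    apply Subtype.ext
    show aff e 1 v * aff e 1 w = aff e 1 (v + w)
    rw [aff_mul, one_mul, act_one, add_comm]
  have hT0 : T 0 = 1 := Subtype.ext (aff_one e)
  have hTinv : ∀ v, (T v)⁻¹ = T (-v) := by
    intro v
    rw [inv_eq_iff_mul_eq_one, hTT, add_neg_cancel, hT0]
  have hQQ : ∀ s t, Q (s * t) = Q s * Q t := by
    intro s t
    apply Subtype.ext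
    show aff e (s * t : Perm D) 0 = aff e s 0 * aff e t 0
    rw [aff_mul, map_zero, add_zero]
  have hQT : ∀ (s : H) w, Q s * T w = T (act p s w) * Q s := by
    intro s w
    apply Subtype.ext
    show aff e s 0 * aff e 1 w = aff e 1 (act p s w) * aff e s 0
    rw [aff_mul, aff_mul, mul_one, one_mul, map_zero, zero_add, add_zero]
  have hTinj : ∀ v w, T v = T w → v = w := fun v w h => (aff_inj hpD e (congrArg Subtype.val h)).2
  have hconj : ∀ (s : H) w v, (T v * Q s) * T w * (T v * Q s)⁻¹ = T (act p s w) := by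
    intro s w v
    rw [mul_assoc (T v), hQT, mul_inv_rev, ← mul_assoc (T v), hTT, add_comm, ← hTT]
    group
  -- the invariant subgroup attached to a subgroup
  have key : ∀ L : Subgroup G, (∀ s : H, ∀ w, T w ∈ L → T (act p s w) ∈ L) → (∃ w, w ≠ 0 ∧ T w ∈ L) → ∀ w, T w ∈ L := by
    intro L hL hne w
    let W : AddSubgroup (Quo D p) :=
      { carrier := {w | T w ∈ L}
        add_mem' := by
          intro a b ha hb
          show T (a + b) ∈ L
          rw [← hTT]
          exact L.mul_mem ha hb
        zero_mem' := by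
          show T 0 ∈ L
          rw [hT0]
          exact L.one_mem
        neg_mem' := by
          intro a ha
          show T (-a) ∈ L
          rw [← hTinv]
          exact L.inv_mem ha }
    rcases quo_irreducible hpD H h2 hs W (fun s hs w hw => hL ⟨s, hs⟩ w hw) with h | h
    · exfalso
      obtain ⟨v, hv, hvL⟩ := hne
      have : v ∈ W := hvL
      rw [h] at this
      exact hv (AddSubgroup.mem_bot.1 this)
    · have : w ∈ W := by rw [h]; exact AddSubgroup.mem_top w
      exact this
  set α : Ω := e.symm 0 with hα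
  have heα : e α = 0 := e.apply_symm_apply 0
  obtain ⟨⟨a, b, hab⟩, h2t⟩ := h2
  have h2 : TwoTransitive H := ⟨⟨a, b, hab⟩, h2t⟩
  have hcls0 : ∀ d : D, cls p d ≠ 0 := cls_ne_zero ⟨a, b, hab⟩
  have hntΩ : Nontrivial Ω := ⟨e.symm (cls p a), α, fun h => hcls0 a (by
    have := congrArg e h
    rwa [Equiv.apply_symm_apply, heα] at this)⟩
  set K := MulAction.stabilizer G α with hK
  have hKmem : ∀ g : G, g ∈ K ↔ (g : Perm Ω) α = α := fun g => Iff.rfl
  have hTα : ∀ w, e ((T w).1 α) = w := by
    intro w
    rw [aff_apply, heα, map_zero, zero_add]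
  have hQα : ∀ s, Q s ∈ K := by
    intro s
    rw [hKmem]
    apply e.injective
    show e (aff e s 0 α) = e α
    rw [aff_apply, heα, map_zero, zero_add]
  have hTK : ∀ w, T w ∈ K → w = 0 := by
    intro w hw
    rw [hKmem] at hw
    have := hTα w
    rw [hw, heα] at this
    exact this.symm
  have hpre : MulAction.IsPretransitive G Ω := by
    refine ⟨fun x y => ⟨T (e y - e x), ?_⟩⟩
    apply e.injective
    show e (aff e 1 (e y - e x) x) = e y
    rw [aff_apply, act_one, add_sub_cancel]
  refine ⟨?_, ?_, α, ?_, ?_⟩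
  · rw [← MulAction.isCoatom_stabilizer_iff_preprimitive G α]
    constructor
    · intro h
      apply hcls0 a
      apply hTK
      show T (cls p a) ∈ MulAction.stabilizer G α
      rw [h]
      exact Subgroup.mem_top _
    · intro L hL
      rw [eq_top_iff]
      obtain ⟨g, hgL, hgK⟩ := SetLike.exists_of_lt hL
      have hall := key L (fun s w hw => by
        have h1 : T (act p s w) = Q s * T w * (Q s)⁻¹ := by rw [hQT]; group
        rw [h1]
        exact L.mul_mem (L.mul_mem (hL.le (hQα s)) hw) (L.inv_mem (hL.le (hQα s)))) (by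
        obtain ⟨w, s, rfl⟩ := hTQ g
        refine ⟨w, ?_, ?_⟩
        · rintro rfl
          apply hgK
          rw [hT0, one_mul]
          exact hQα s
        · have h1 := L.mul_mem hgL (L.inv_mem (hL.le (hQα s)))
          rwa [mul_inv_cancel_right] at h1)
      intro g' _
      obtain ⟨w, s, rfl⟩ := hTQ g'
      exact L.mul_mem (hall w) (hL.le (hQα s))
  · let N : Subgroup G :=
      { carrier := {g | ∃ w, g = T w}
        mul_mem' := by
          rintro _ _ ⟨v, rfl⟩ ⟨w, rfl⟩
          exact ⟨v + w, hTT v w⟩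
        one_mem' := ⟨0, hT0.symm⟩
        inv_mem' := by
          rintro _ ⟨v, rfl⟩
          exact ⟨-v, hTinv v⟩ }
    have hNmem : ∀ g, g ∈ N ↔ ∃ w, g = T w := fun g => Iff.rfl
    refine ⟨N, ⟨?_⟩, ?_, ?_, ?_⟩
    · rintro _ ⟨w, rfl⟩ g
      obtain ⟨v, s, rfl⟩ := hTQ g
      exact ⟨_, hconj s w v⟩
    · intro h
      have h1 : T (cls p a) ∈ N := ⟨_, rfl⟩
      rw [h, Subgroup.mem_bot, ← hT0] at h1
      exact hcls0 a (hTinj _ _ h1)
    · intro M hM hMne
      obtain ⟨⟨m, hmM⟩, hm1⟩ := Subgroup.ne_bot_iff_exists_ne_one.1 hMne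
      have hm1 : m ≠ 1 := fun h => hm1 (Subtype.ext h)
      have hall := key M (fun s w hw => by
        rw [← hconj s w 0]
        exact hM.conj_mem _ hw _) (by
        obtain ⟨w, s, rfl⟩ := hTQ m
        by_cases hall : ∀ v, act p (s : Perm D) v = v
        · have hs1 : s = 1 := Subtype.ext (act_faithful hpD hall)
          have hQ1 : Q s = 1 := by rw [hs1]; exact Subtype.ext (aff_one e)
          rw [hQ1, mul_one] at hmM hm1
          refine ⟨w, ?_, hmM⟩
          rintro rfl
          exact hm1 hT0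
        · push Not at hall
          obtain ⟨v, hv⟩ := hall
          refine ⟨act p s v - v, sub_ne_zero.2 hv, ?_⟩
          have h1 : T (act p s v - v) = (T w * Q s) * (T v * (T w * Q s)⁻¹ * (T v)⁻¹) := by
            rw [sub_eq_add_neg, ← hTT, ← hconj s v w, hTinv]
            group
          rw [h1]
          exact M.mul_mem hmM (hM.conj_mem _ (M.inv_mem hmM) _))
      rintro _ ⟨w, rfl⟩
      exact hall w
    · intro x y
      refine ⟨T (e y - e x), ⟨⟨_, rfl⟩, ?_⟩, ?_⟩
      · apply e.injective
        show e (aff e 1 (e y - e x) x) = e y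
        rw [aff_apply, act_one, add_sub_cancel]
      · rintro _ ⟨⟨w, rfl⟩, hw⟩
        have h1 : e x + w = e y := by
          rw [← hw]
          show e x + w = e (aff e 1 w x)
          rw [aff_apply, act_one]
        rw [← h1, add_sub_cancel_left]
  · refine ⟨{x | ∃ d, e x = cls p d}, ?_, ?_, ?_, ?_⟩
    · rintro ⟨d, hd⟩
      rw [heα] at hd
      exact hcls0 d hd.symm
    · refine ⟨e.symm (cls p a), ⟨a, e.apply_symm_apply _⟩, e.symm (cls p b), ⟨b, e.apply_symm_apply _⟩, ?_⟩
      intro h
      exact hab (cls_inj hpD (e.symm.injective h))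
    · rintro h hG hα' x ⟨d, hd⟩
      obtain ⟨s, hs, w, rfl⟩ := hdec h hG
      have hw : w = 0 := by
        have := aff_apply e s w α
        rw [hα', heα, map_zero, zero_add] at this
        exact this.symm
      refine ⟨s d, ?_⟩
      rw [aff_apply, hd, act_cls, hw, add_zero]
    · rintro x ⟨dx, hx⟩ y ⟨dy, hy⟩ z ⟨dz, hz⟩ w ⟨dw, hw⟩ hxy hzw
      obtain ⟨s, hs, hs1, hs2⟩ := h2t dx dy dz dw (by
        rintro rfl
        exact hxy (e.injective (hx.trans hy.symm))) (by
        rintro rfl
        exact hzw (e.injective (hz.trans hw.symm)))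
      refine ⟨aff e s 0, hmem s hs 0, ?_, ?_, ?_⟩
      · apply e.injective
        rw [aff_apply, heα, map_zero, zero_add]
      · apply e.injective
        rw [aff_apply, hx, hz, act_cls, hs1, add_zero]
      · apply e.injective
        rw [aff_apply, hy, hw, act_cls, hs2, add_zero]
  · let f : H →* K :=
      { toFun := fun s => ⟨Q s, hQα s⟩
        map_one' := Subtype.ext (Subtype.ext (aff_one e))
        map_mul' := fun s t => Subtype.ext (hQQ s t) }
    have hf : Function.Bijective f := by
      constructor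
      · intro s t hst
        have h1 : Q s = Q t := congrArg Subtype.val hst
        exact Subtype.ext (aff_inj hpD e (congrArg Subtype.val h1)).1
      · rintro ⟨g, hg⟩
        obtain ⟨w, s, rfl⟩ := hTQ g
        have h1 := K.mul_mem hg (K.inv_mem (hQα s))
        rw [mul_inv_cancel_right] at h1
        refine ⟨s, Subtype.ext ?_⟩
        show Q s = T w * Q s
        rw [hTK w h1, hT0, one_mul]
    exact HasSolubleNormal.of_equiv (MulEquiv.ofBijective f hf) hs

end Pool.Agent.Lib.MP_79a223_al
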