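import Pool.Agent.Lib.MP_79a223_al.Bwd
import Pool.Agent.Lib.MP_79a223_al.Fwd4

/-!
# The groups of the second classification: primitivity, the invariant form, and orders
-/

open Equiv

namespace Pool.Agent.Lib.MP_79a223_al

section

variable {D : Type} [Fintype D] {p : ℕ} [Fact p.Prime]

/-- the form on functions -/
noncomputable def bform (f g : D → ZMod p) : ZMod p := ∑ x, f x * g x - (Fintype.card D : ZMod p)⁻¹ * ((∑ x, f x) * ∑ x, g x)

lemma bform_comm (f g : D → ZMod p) : bform f g = bform g f := by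
  rw [bform, bform, mul_comm (∑ x, f x)]
  congr 1
  exact Finset.sum_congr rfl fun x _ => mul_comm _ _

lemma bform_add (f f' g : D → ZMod p) : bform (f + f') g = bform f g + bform f' g := by
  simp only [bform, Pi.add_apply, add_mul, Finset.sum_add_distrib, mul_add]
  ring

lemma bform_const (hp : ¬ p ∣ Fintype.card D) (f : D → ZMod p) (hf : f ∈ consts D p) (g : D → ZMod p) : bform f g = 0 := by
  have hn : (Fintype.card D : ZMod p) ≠ 0 := by
    rwa [Ne, ZMod.natCast_eq_zero_iff]
  obtain ⟨c, hc⟩ := mem_consts.1 hf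
  rw [bform]
  rw [Finset.sum_congr rfl (fun x _ => by rw [hc x] : ∀ x ∈ Finset.univ, f x * g x = c * g x), ← Finset.mul_sum,
    Finset.sum_congr rfl (fun x _ => hc x : ∀ x ∈ Finset.univ, f x = c), Finset.sum_const, Finset.card_univ, nsmul_eq_mul]
  field_simp
  ring

lemma bform_congr (hp : ¬ p ∣ Fintype.card D) {f f' g g' : D → ZMod p}
    (hf : (Submodule.Quotient.mk f : Quo D p) = Submodule.Quotient.mk f')
    (hg : (Submodule.Quotient.mk g : Quo D p) = Submodule.Quotient.mk g') : bform f g = bform f' g' := by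
  have h1 : ∀ {f f' : D → ZMod p}, (Submodule.Quotient.mk f : Quo D p) = Submodule.Quotient.mk f' → ∀ g,
      bform f g = bform f' g := by
    intro f f' hf g
    have h2 := (Submodule.Quotient.eq _).1 hf
    have h3 : f = f' + (f - f') := by abel
    rw [h3, bform_add, bform_const hp _ h2, add_zero]
  rw [h1 hf, bform_comm, h1 hg, bform_comm]

lemma bform_rho (s : Perm D) (f g : D → ZMod p) : bform (rho p s f) (rho p s g) = bform f g := by
  have h1 : ∀ f : D → ZMod p, ∑ x, rho p s f x = ∑ x, f x := fun f => Equiv.sum_comp s⁻¹ f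
  have h2 : ∑ x, rho p s f x * rho p s g x = ∑ x, f x * g x := Equiv.sum_comp s⁻¹ (fun x => f x * g x)
  rw [bform, bform, h1, h1, h2]

/-- the form on the quotient -/
noncomputable def qform (v w : Quo D p) : ZMod p :=
  bform (Submodule.Quotient.mk_surjective _ v).choose (Submodule.Quotient.mk_surjective _ w).choose

lemma qform_mk (hp : ¬ p ∣ Fintype.card D) (f g : D → ZMod p) :
    qform (Submodule.Quotient.mk f : Quo D p) (Submodule.Quotient.mk g) = bform f g :=
  bform_congr hp (Submodule.Quotient.mk_surjective _ (Submodule.Quotient.mk f)).choose_spec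
    (Submodule.Quotient.mk_surjective _ (Submodule.Quotient.mk g)).choose_spec

lemma qform_comm (v w : Quo D p) : qform v w = qform w v := bform_comm _ _

lemma qform_add (hp : ¬ p ∣ Fintype.card D) (v v' w : Quo D p) : qform (v + v') w = qform v w + qform v' w := by
  obtain ⟨f, rfl⟩ := Submodule.Quotient.mk_surjective _ v
  obtain ⟨f', rfl⟩ := Submodule.Quotient.mk_surjective _ v'
  obtain ⟨g, rfl⟩ := Submodule.Quotient.mk_surjective _ w
  rw [← Submodule.Quotient.mk_add, qform_mk hp, qform_mk hp, qform_mk hp, bform_add]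

lemma qform_act (hp : ¬ p ∣ Fintype.card D) (s : Perm D) (v w : Quo D p) : qform (act p s v) (act p s w) = qform v w := by
  obtain ⟨f, rfl⟩ := Submodule.Quotient.mk_surjective _ v
  obtain ⟨g, rfl⟩ := Submodule.Quotient.mk_surjective _ w
  rw [act_mk, act_mk, qform_mk hp, qform_mk hp, bform_rho]

lemma qform_cls (hp : ¬ p ∣ Fintype.card D) (a b : D) (hab : a ≠ b) : qform (cls p a) (cls p b) ≠ 0 := by
  classical
  have hn : (Fintype.card D : ZMod p) ≠ 0 := by
    rwa [Ne, ZMod.natCast_eq_zero_iff]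
  have h1 : qform (cls p a) (cls p b) = bform (Pi.single a 1 : D → ZMod p) (Pi.single b 1) := by
    rw [cls, cls]
    convert qform_mk hp _ _
  rw [h1, bform]
  have h2 : ∑ x, (Pi.single a 1 : D → ZMod p) x * (Pi.single b 1 : D → ZMod p) x = 0 := by
    refine Finset.sum_eq_zero fun x _ => ?_
    by_cases hx : x = a
    · subst hx
      simp [hab]
    · simp [hx]
  have h3 : ∀ c : D, ∑ x, (Pi.single c 1 : D → ZMod p) x = 1 := by
    intro c
    simp [Pi.single_apply]
  rw [h2, h3, h3, zero_sub, mul_one, mul_one]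
  exact neg_ne_zero.2 (inv_ne_zero hn)

lemma card_quo (hD : Nonempty D) : p * Nat.card (Quo D p) = p ^ Fintype.card D := by
  have h1 : Nat.card (D → ZMod p) = p ^ Fintype.card D := by
    rw [Nat.card_fun, Nat.card_zmod, Nat.card_eq_fintype_card]
  have h2 := Submodule.card_eq_card_quotient_mul_card (consts D p)
  have h3 : Nat.card (consts D p) = p := by
    have hne : (fun _ : D => (1 : ZMod p)) ≠ 0 := by
      intro h
      obtain ⟨d⟩ := hD
      exact one_ne_zero (congrFun h d)
    exact (Nat.card_congr (LinearEquiv.toSpanNonzeroSingleton (ZMod p) _ _ hne).toEquiv).symm.trans (Nat.card_zmod p)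
  rw [← h1, h2, h3]

end

theorem backward2 {Ω : Type} (G : Subgroup (Perm Ω)) (n : ℕ) (hG : HeartData G n) :
    ∃ (N : Subgroup G) (α : Ω), RegularSocle G N ∧
      (∃ S, IsTwoTransitiveSuborbit G α S ∧ Nat.card S = n ∧ HasInvariantCharacter G N α S) ∧
      HasInvariantForm G N α := by
  classical
  obtain ⟨D, iD, H, p, hp, hpD, hnD, h2, hqi, e, he⟩ := hG
  have : Fact p.Prime := ⟨hp⟩
  have hmem : ∀ s ∈ H, ∀ w, aff e s w ∈ G := fun s hs w => (he _).2 ⟨s, hs, w, aff_apply e s w⟩
  have hdec : ∀ g ∈ G, ∃ s ∈ H, ∃ w, g = aff e s w := by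
    intro g hg
    obtain ⟨s, hs, w, h⟩ := (he g).1 hg
    exact ⟨s, hs, w, eq_aff e s w g h⟩
  let T : Quo D p → G := fun w => ⟨aff e 1 w, hmem 1 H.one_mem w⟩
  let Q : H → G := fun s => ⟨aff e s 0, hmem s s.2 0⟩
  have hTQ : ∀ g : G, ∃ w s, g = T w * Q s := by
    rintro ⟨g, hg⟩
    obtain ⟨s, hs, w, rfl⟩ := hdec g hg
    refine ⟨w, ⟨s, hs⟩, Subtype.ext ?_⟩
    show aff e s w = aff e 1 w * aff e s 0
    rw [aff_mul, one_mul, act_one, zero_add]
  have hTT : ∀ v w, T v * T w = T (v + w) := by
    intro v w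
    apply Subtype.ext
    show aff e 1 v * aff e 1 w = aff e 1 (v + w)
    rw [aff_mul, one_mul, act_one, add_comm]
  have hT0 : T 0 = 1 := Subtype.ext (aff_one e)
  have hTinv : ∀ v, (T v)⁻¹ = T (-v) := by
    intro v
    rw [inv_eq_iff_mul_eq_one, hTT, add_neg_cancel, hT0]
  have hQT : ∀ (s : H) w, Q s * T w = T (act p s w) * Q s := by
    intro s w
    apply Subtype.ext
    show aff e s 0 * aff e 1 w = aff e 1 (act p s w) * aff e s 0
    rw [aff_mul, aff_mul, mul_one, one_mul, map_zero, zero_add, add_zero]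
  have hTinj : ∀ v w, T v = T w → v = w := fun v w h => (aff_inj hpD e (congrArg Subtype.val h)).2
  have hconj : ∀ (s : H) w v, (T v * Q s) * T w * (T v * Q s)⁻¹ = T (act p s w) := by
    intro s w v
    rw [mul_assoc (T v), hQT, mul_inv_rev, ← mul_assoc (T v), hTT, add_comm, ← hTT]
    group
  -- the invariant subgroup attached to a subgroup
  have key : ∀ L : Subgroup G, (∀ s : H, ∀ w, T w ∈ L → T (act p s w) ∈ L) → (∃ w, w ≠ 0 ∧ T w ∈ L) → ∀ w, T w ∈ L := by
    intro L hL hne w
    let W : AddSubgroup (Quo D p) :=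
      { carrier := {w | T w ∈ L}
        add_mem' := by
          intro a b ha hb
          show T (a + b) ∈ L
          rw [← hTT]
          exact L.mul_mem ha hb
        zero_mem' := by
          show T 0 ∈ L
          rw [hT0]
          exact L.one_mem
        neg_mem' := by
          intro a ha
          show T (-a) ∈ L
          rw [← hTinv]
          exact L.inv_mem ha }
    rcases hqi W (fun s hs w hw => hL ⟨s, hs⟩ w hw) with h | h
    · exfalso
      obtain ⟨v, hv, hvL⟩ := hne
      have : v ∈ W := hvL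
      rw [h] at this
      exact hv (AddSubgroup.mem_bot.1 this)
    · have : w ∈ W := by rw [h]; exact AddSubgroup.mem_top w
      exact this
  set α : Ω := e.symm 0 with hα
  have heα : e α = 0 := e.apply_symm_apply 0
  obtain ⟨⟨a, b, hab⟩, h2t⟩ := h2
  have hcls0 : ∀ d : D, cls p d ≠ 0 := cls_ne_zero ⟨a, b, hab⟩
  have hntΩ : Nontrivial Ω := ⟨e.symm (cls p a), α, fun h => hcls0 a (by
    have := congrArg e h
    rwa [Equiv.apply_symm_apply, heα] at this)⟩
  set K := MulAction.stabilizer G α with hK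
  have hKmem : ∀ g : G, g ∈ K ↔ (g : Perm Ω) α = α := fun g => Iff.rfl
  have hTα : ∀ w, e ((T w).1 α) = w := by
    intro w
    rw [aff_apply, heα, map_zero, zero_add]
  have hQα : ∀ s, Q s ∈ K := by
    intro s
    rw [hKmem]
    apply e.injective
    show e (aff e s 0 α) = e α
    rw [aff_apply, heα, map_zero, zero_add]
  have hTK : ∀ w, T w ∈ K → w = 0 := by
    intro w hw
    rw [hKmem] at hw
    have := hTα w
    rw [hw, heα] at this
    exact this.symm
  have hpre : MulAction.IsPretransitive G Ω := by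
    refine ⟨fun x y => ⟨T (e y - e x), ?_⟩⟩
    apply e.injective
    show e (aff e 1 (e y - e x) x) = e y
    rw [aff_apply, act_one, add_sub_cancel]
  let N : Subgroup G :=
    { carrier := {g | ∃ w, g = T w}
      mul_mem' := by
        rintro _ _ ⟨v, rfl⟩ ⟨w, rfl⟩
        exact ⟨v + w, hTT v w⟩
      one_mem' := ⟨0, hT0.symm⟩
      inv_mem' := by
        rintro _ ⟨v, rfl⟩
        exact ⟨-v, hTinv v⟩ }
  have hNmem : ∀ g, g ∈ N ↔ ∃ w, g = T w := fun g => Iff.rfl
  refine ⟨N, α, ⟨?_, ⟨?_⟩, ?_, ?_, ?_⟩, ?_, ?_⟩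
  · rw [← MulAction.isCoatom_stabilizer_iff_preprimitive G α]
    constructor
    · intro h
      apply hcls0 a
      apply hTK
      show T (cls p a) ∈ MulAction.stabilizer G α
      rw [h]
      exact Subgroup.mem_top _
    · intro L hL
      rw [eq_top_iff]
      obtain ⟨g, hgL, hgK⟩ := SetLike.exists_of_lt hL
      have hall := key L (fun s w hw => by
        have h1 : T (act p s w) = Q s * T w * (Q s)⁻¹ := by rw [hQT]; group
        rw [h1]
        exact L.mul_mem (L.mul_mem (hL.le (hQα s)) hw) (L.inv_mem (hL.le (hQα s)))) (by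
        obtain ⟨w, s, rfl⟩ := hTQ g
        refine ⟨w, ?_, ?_⟩
        · rintro rfl
          apply hgK
          rw [hT0, one_mul]
          exact hQα s
        · have h1 := L.mul_mem hgL (L.inv_mem (hL.le (hQα s)))
          rwa [mul_inv_cancel_right] at h1)
      intro g' _
      obtain ⟨w, s, rfl⟩ := hTQ g'
      exact L.mul_mem (hall w) (hL.le (hQα s))
  · rintro _ ⟨w, rfl⟩ g
    obtain ⟨v, s, rfl⟩ := hTQ g
    exact ⟨_, hconj s w v⟩
  · intro h
    have h1 : T (cls p a) ∈ N := ⟨_, rfl⟩
    rw [h, Subgroup.mem_bot, ← hT0] at h1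
    exact hcls0 a (hTinj _ _ h1)
  · intro M hM hMne
    obtain ⟨⟨m, hmM⟩, hm1⟩ := Subgroup.ne_bot_iff_exists_ne_one.1 hMne
    have hm1 : m ≠ 1 := fun h => hm1 (Subtype.ext h)
    have hall := key M (fun s w hw => by
      rw [← hconj s w 0]
      exact hM.conj_mem _ hw _) (by
      obtain ⟨w, s, rfl⟩ := hTQ m
      by_cases hall : ∀ v, act p (s : Perm D) v = v
      · have hs1 : s = 1 := Subtype.ext (act_faithful hpD hall)
        have hQ1 : Q s = 1 := by rw [hs1]; exact Subtype.ext (aff_one e)
        rw [hQ1, mul_one] at hmM hm1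
        refine ⟨w, ?_, hmM⟩
        rintro rfl
        exact hm1 hT0
      · push Not at hall
        obtain ⟨v, hv⟩ := hall
        refine ⟨act p s v - v, sub_ne_zero.2 hv, ?_⟩
        have h1 : T (act p s v - v) = (T w * Q s) * (T v * (T w * Q s)⁻¹ * (T v)⁻¹) := by
          rw [sub_eq_add_neg, ← hTT, ← hconj s v w, hTinv]
          group
        rw [h1]
        exact M.mul_mem hmM (hM.conj_mem _ (M.inv_mem hmM) _))
    rintro _ ⟨w, rfl⟩
    exact hall w
  · intro x y
    refine ⟨T (e y - e x), ⟨⟨_, rfl⟩, ?_⟩, ?_⟩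
    · apply e.injective
      show e (aff e 1 (e y - e x) x) = e y
      rw [aff_apply, act_one, add_sub_cancel]
    · rintro _ ⟨⟨w, rfl⟩, hw⟩
      have h1 : e x + w = e y := by
        rw [← hw]
        show e x + w = e (aff e 1 w x)
        rw [aff_apply, act_one]
      rw [← h1, add_sub_cancel_left]
  · refine ⟨{x | ∃ d, e x = cls p d}, ⟨?_, ?_, ?_, ?_⟩, ?_, ?_⟩
    · rintro ⟨d, hd⟩
      rw [heα] at hd
      exact hcls0 d hd.symm
    · refine ⟨e.symm (cls p a), ⟨a, e.apply_symm_apply _⟩, e.symm (cls p b), ⟨b, e.apply_symm_apply _⟩, ?_⟩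
      intro h
      exact hab (cls_inj hpD (e.symm.injective h))
    · rintro h hG hα' x ⟨d, hd⟩
      obtain ⟨s, hs, w, rfl⟩ := hdec h hG
      have hw : w = 0 := by
        have := aff_apply e s w α
        rw [hα', heα, map_zero, zero_add] at this
        exact this.symm
      refine ⟨s d, ?_⟩
      rw [aff_apply, hd, act_cls, hw, add_zero]
    · rintro x ⟨dx, hx⟩ y ⟨dy, hy⟩ z ⟨dz, hz⟩ w ⟨dw, hw⟩ hxy hzw
      obtain ⟨s, hs, hs1, hs2⟩ := h2t dx dy dz dw (by
        rintro rfl
        exact hxy (e.injective (hx.trans hy.symm))) (by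
        rintro rfl
        exact hzw (e.injective (hz.trans hw.symm)))
      refine ⟨aff e s 0, hmem s hs 0, ?_, ?_, ?_⟩
      · apply e.injective
        rw [aff_apply, heα, map_zero, zero_add]
      · apply e.injective
        rw [aff_apply, hx, hz, act_cls, hs1, add_zero]
      · apply e.injective
        rw [aff_apply, hy, hw, act_cls, hs2, add_zero]
    · rw [hnD, ← Nat.card_eq_fintype_card]
      refine (Nat.card_congr (Equiv.ofBijective
        (fun d : D => (⟨e.symm (cls p d), d, e.apply_symm_apply _⟩ : {x | ∃ d, e x = cls p d})) ⟨?_, ?_⟩)).symm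
      · intro d d' h
        exact cls_inj hpD (e.symm.injective (congrArg Subtype.val h))
      · rintro ⟨x, d, hd⟩
        refine ⟨d, Subtype.ext ?_⟩
        show e.symm (cls p d) = x
        rw [← hd, Equiv.symm_apply_apply]
    · have hNT : ∀ c : N, ∃ w, (c : G) = T w := fun c => c.2
      let χ : N →* Multiplicative (ZMod p) :=
        { toFun := fun c => Multiplicative.ofAdd (qform (e ((c : G).1 α)) (cls p b))
          map_one' := by
            have h1 : ((1 : N) : G) = T 0 := hT0.symm
            have h2 := qform_add hpD 0 0 (cls p b)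
            rw [add_zero] at h2
            rw [h1, hTα, left_eq_add.1 h2, ofAdd_zero]
          map_mul' := by
            intro c c'
            obtain ⟨v, hv⟩ := hNT c
            obtain ⟨v', hv'⟩ := hNT c'
            rw [Subgroup.coe_mul, hv, hv', hTT, hTα, hTα, hTα, qform_add hpD, ofAdd_add] }
      have hχ : ∀ c : N, χ c = Multiplicative.ofAdd (qform (e ((c : G).1 α)) (cls p b)) := fun c => rfl
      refine ⟨e.symm (cls p b), ⟨b, e.apply_symm_apply _⟩, Multiplicative (ZMod p), inferInstance, χ, ?_, ?_⟩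
      · intro h
        apply qform_cls hpD a b hab
        have h0 := hχ ⟨T (cls p a), _, rfl⟩
        rw [h] at h0
        have h1 := Multiplicative.ofAdd.injective (h0.symm.trans ofAdd_zero.symm)
        rw [hTα] at h1
        exact h1
      · intro k hk hkb c c' hc
        obtain ⟨w, s, rfl⟩ := hTQ k
        have hw : w = 0 := by
          have h1 := K.mul_mem ((hKmem _).2 hk) (K.inv_mem (hQα s))
          rw [mul_inv_cancel_right] at h1
          exact hTK w h1
        subst hw
        have hsb : act p (s : Perm D) (cls p b) = cls p b := by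
          have h1 := congrArg e hkb
          rw [hT0, one_mul] at h1
          have h2 := aff_apply e (s : Perm D) 0 (e.symm (cls p b))
          rw [Equiv.apply_symm_apply, add_zero] at h2
          rw [← h2]
          rw [Equiv.apply_symm_apply] at h1
          exact h1
        obtain ⟨u, hu⟩ := hNT c
        rw [hu, hconj] at hc
        rw [hχ, hχ, hc, hu, hTα, hTα]
        conv_lhs => rw [← hsb, qform_act hpD]
  · have hNT : ∀ c : N, ∃ w, (c : G) = T w := fun c => c.2
    refine ⟨Multiplicative (ZMod p), inferInstance,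
      fun c d => Multiplicative.ofAdd (qform (e ((c : G).1 α)) (e ((d : G).1 α))), ?_, ?_, ?_, ?_⟩
    · intro c c' d
      obtain ⟨v, hv⟩ := hNT c
      obtain ⟨v', hv'⟩ := hNT c'
      beta_reduce
      rw [Subgroup.coe_mul, hv, hv', hTT, hTα, hTα, hTα, qform_add hpD, ofAdd_add]
    · intro c d d'
      obtain ⟨w, hw⟩ := hNT d
      obtain ⟨w', hw'⟩ := hNT d'
      beta_reduce
      rw [Subgroup.coe_mul, hw, hw', hTT, hTα, hTα, hTα, qform_comm, qform_add hpD, ofAdd_add, qform_comm w,
        qform_comm w']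
    · refine ⟨⟨T (cls p a), _, rfl⟩, ⟨T (cls p b), _, rfl⟩, ?_⟩
      intro h
      apply qform_cls hpD a b hab
      have h1 := Multiplicative.ofAdd.injective (h.trans ofAdd_zero.symm)
      rw [hTα, hTα] at h1
      exact h1
    · intro k hk c d c' d' hc hd
      obtain ⟨w, s, rfl⟩ := hTQ k
      have hw : w = 0 := by
        have h1 := K.mul_mem ((hKmem _).2 hk) (K.inv_mem (hQα s))
        rw [mul_inv_cancel_right] at h1
        exact hTK w h1
      obtain ⟨u, hu⟩ := hNT c
      obtain ⟨v, hv⟩ := hNT d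
      rw [hu, hconj] at hc
      rw [hv, hconj] at hd
      show Multiplicative.ofAdd (qform (e ((c' : G).1 α)) (e ((d' : G).1 α))) =
        Multiplicative.ofAdd (qform (e ((c : G).1 α)) (e ((d : G).1 α)))
      rw [hc, hd, hu, hv, hTα, hTα, hTα, hTα, qform_act hpD]

/-- the order of the set -/
lemma card_of_heartData {Ω : Type} (G : Subgroup (Perm Ω)) (n : ℕ) (hG : HeartData G n) :
    ∃ p : ℕ, p.Prime ∧ 2 ≤ n ∧ Nat.card Ω = p ^ (n - 1) := by
  obtain ⟨D, iD, H, p, hp, hpD, hnD, ⟨⟨a, b, hab⟩, -⟩, -, e, -⟩ := hG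
  have : Fact p.Prime := ⟨hp⟩
  have h1 := card_quo (D := D) (p := p) ⟨a⟩
  have h2 : 2 ≤ Fintype.card D := by
    have : Nontrivial D := ⟨a, b, hab⟩
    exact Fintype.one_lt_card
  refine ⟨p, hp, hnD ▸ h2, ?_⟩
  rw [Nat.card_congr e]
  apply Nat.eq_of_mul_eq_mul_left hp.pos
  rw [h1, ← pow_succ']
  congr 1
  omega

end Pool.Agent.Lib.MP_79a223_al
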