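import Pool.Agent.Lib.MP_79a223_al.Quo

/-!
# Groups acting irreducibly on a finite group, with a nontrivial abelian normal subgroup
-/

open Equiv Pointwise

namespace Pool.Agent.Lib.MP_79a223_al

section

variable {H N : Type} [Group H] [Group N] [MulDistribMulAction H N]

/-- the fixed points of a nontrivial normal subgroup are trivial -/
lemma fixed_trivial (hfaith : ∀ h : H, (∀ n : N, h • n = n) → h = 1)
    (hirr : ∀ M : Subgroup N, (∀ h : H, ∀ m ∈ M, h • m ∈ M) → M = ⊥ ∨ M = ⊤)
    (A : Subgroup H) (hA : A.Normal) (hne : A ≠ ⊥) (n : N) (hn : ∀ a ∈ A, a • n = n) : n = 1 := by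
  let M : Subgroup N :=
    { carrier := {n | ∀ a ∈ A, a • n = n}
      mul_mem' := by
        intro x y hx hy a ha
        rw [smul_mul', hx a ha, hy a ha]
      one_mem' := fun a _ => smul_one a
      inv_mem' := by
        intro x hx a ha
        rw [smul_inv', hx a ha] }
  rcases hirr M (by
    intro h m hm a ha
    have h1 : a * h = h * (h⁻¹ * a * h) := by group
    have h2 : h⁻¹ * a * h ∈ A := by simpa using hA.conj_mem a ha h⁻¹
    rw [smul_smul, h1, ← smul_smul, hm _ h2]) with h | h
  · have : n ∈ M := hn
    rw [h] at this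
    exact Subgroup.mem_bot.1 this
  · exfalso
    apply hne
    rw [eq_bot_iff]
    intro a ha
    rw [Subgroup.mem_bot]
    refine hfaith a fun m => ?_
    have : m ∈ M := by rw [h]; exact Subgroup.mem_top m
    exact this a ha

/-- if the group acted upon is finite and the normal subgroup is an `r`-group then the former is an `s`-group -/
lemma exists_prime [Finite N] [Nontrivial N] (hfaith : ∀ h : H, (∀ n : N, h • n = n) → h = 1)
    (hirr : ∀ M : Subgroup N, (∀ h : H, ∀ m ∈ M, h • m ∈ M) → M = ⊥ ∨ M = ⊤)
    (A : Subgroup H) (hA : A.Normal) (hne : A ≠ ⊥) (r : ℕ) [Fact r.Prime] (hr : IsPGroup r A) :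
    ∃ s : ℕ, s.Prime ∧ s ≠ r ∧ IsPGroup s N := by
  have hfix := fixed_trivial hfaith hirr A hA hne
  have hfix' : ∀ n : N, n ∈ MulAction.fixedPoints A N → n = 1 := by
    intro n hn
    exact hfix n fun a ha => hn ⟨a, ha⟩
  have hcop : ¬ r ∣ Nat.card N := by
    intro hdvd
    obtain ⟨b, hb, hb1⟩ := hr.exists_fixed_point_of_prime_dvd_card_of_fixed_point N hdvd (a := 1)
      (fun a => smul_one a)
    exact hb1 (hfix' b hb).symm
  obtain ⟨s, hs, hsN⟩ : ∃ s, s.Prime ∧ s ∣ Nat.card N :=
    Nat.exists_prime_and_dvd (Finite.one_lt_card.ne')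
  have : Fact s.Prime := ⟨hs⟩
  refine ⟨s, hs, fun h => hcop (h ▸ hsN), ?_⟩
  -- an invariant Sylow subgroup
  obtain ⟨P, hP⟩ := hr.nonempty_fixed_point_of_prime_not_dvd_card (Sylow s N) (by
    intro h
    have P : Sylow s N := default
    exact hcop (h.trans (P.card_dvd_index.trans (Subgroup.index_dvd_card _))))
  -- uniqueness
  have huniq : ∀ Q : Sylow s N, (∀ a ∈ A, a • Q = Q) → P = Q := by
    intro Q hQ
    let X : SubMulAction A N :=
      { carrier := {n | n • P = Q}
        smul_mem' := by
          intro a n hn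
          have h1 : (a • n) • P = a • (n • (a⁻¹ • P)) := by
            apply Sylow.ext
            ext x
            show x ∈ MulAut.conj ((a : H) • n) • P.toSubgroup ↔
              x ∈ (a : H) • (MulAut.conj n • ((a : H)⁻¹ • P.toSubgroup))
            rw [Subgroup.mem_pointwise_smul_iff_inv_smul_mem, Subgroup.mem_pointwise_smul_iff_inv_smul_mem,
              Subgroup.mem_pointwise_smul_iff_inv_smul_mem, Subgroup.mem_pointwise_smul_iff_inv_smul_mem]
            simp only [MulAut.smul_def, MulAut.conj_inv_apply, inv_inv, smul_mul', smul_inv', smul_inv_smul]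
          have h2 : a⁻¹ • P = P := hP a⁻¹
          have h3 : n • P = Q := hn
          show (a • n) • P = Q
          rw [h1, h2, h3]
          exact hQ a a.2 }
    obtain ⟨n0, hn0⟩ := MulAction.exists_smul_eq N P Q
    have hcard : Nat.card X = Nat.card (MulAction.stabilizer N P) := by
      refine Nat.card_congr ?_
      refine
        { toFun := fun x => ⟨n0⁻¹ * x.1, ?_⟩
          invFun := fun m => ⟨n0 * m.1, ?_⟩
          left_inv := fun x => Subtype.ext (by simp)
          right_inv := fun x => Subtype.ext (by simp) }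
      · rw [MulAction.mem_stabilizer_iff, mul_smul, inv_smul_eq_iff, hn0]
        exact x.2
      · show (n0 * m.1) • P = Q
        rw [mul_smul, m.2, hn0]
    obtain ⟨x, hx⟩ := hr.nonempty_fixed_point_of_prime_not_dvd_card X (by
      rw [hcard]
      intro h
      exact hcop (h.trans (Subgroup.card_subgroup_dvd_card _)))
    have hx1 : (x : N) = 1 := by
      refine hfix' x fun a => ?_
      have := congrArg Subtype.val (hx a)
      exact this
    have hx2 : (x : N) • P = Q := x.2
    rw [hx1, one_smul] at hx2
    exact hx2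
  have hinv : ∀ h : H, h • P = P := by
    intro h
    refine (huniq (h • P) fun a ha => ?_).symm
    have h1 : a * h = h * (h⁻¹ * a * h) := by group
    have h2 : h⁻¹ * a * h ∈ A := by simpa using hA.conj_mem a ha h⁻¹
    rw [smul_smul, h1, ← smul_smul]
    congr 1
    exact hP ⟨_, h2⟩
  rcases hirr P (by
    intro h m hm
    have h1 : (h • P : Sylow s N).toSubgroup = P.toSubgroup := by rw [hinv h]
    rw [← h1, Sylow.pointwise_smul_def]
    exact Subgroup.smul_mem_pointwise_smul m h _ hm) with h | h
  · exact absurd h (P.ne_bot_of_dvd_card hsN)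
  · have := P.2
    rw [h] at this
    exact this.of_equiv Subgroup.topEquiv

/-- if the group acted upon is a nontrivial finite `s`-group then it is elementary abelian -/
lemma elementary [Finite N] [Nontrivial N]
    (hirr : ∀ M : Subgroup N, (∀ h : H, ∀ m ∈ M, h • m ∈ M) → M = ⊥ ∨ M = ⊤) (s : ℕ) [Fact s.Prime]
    (hs : IsPGroup s N) : (∀ a b : N, a * b = b * a) ∧ ∀ a : N, a ^ s = 1 := by
  have h1 : ∀ a b : N, a * b = b * a := by
    rcases hirr (Subgroup.center N) (by
      intro h m hm
      rw [Subgroup.mem_center_iff] at hm ⊢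
      intro g
      have := congrArg (fun x => h • x) (hm (h⁻¹ • g))
      simpa [smul_mul'] using this) with h | h
    · have := hs.center_nontrivial
      rw [h] at this
      exact absurd this (by simp [not_nontrivial])
    · intro a b
      have : b ∈ Subgroup.center N := by rw [h]; exact Subgroup.mem_top b
      exact Subgroup.mem_center_iff.1 this a
  refine ⟨h1, ?_⟩
  let M : Subgroup N :=
    { carrier := {n | n ^ s = 1}
      mul_mem' := by
        intro x y hx hy
        have : (x * y) ^ s = x ^ s * y ^ s := Commute.mul_pow (h1 x y) s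
        rw [Set.mem_ofPred_eq] at hx hy ⊢
        rw [this, hx, hy, one_mul]
      one_mem' := one_pow s
      inv_mem' := by
        intro x hx
        rw [Set.mem_ofPred_eq] at hx ⊢
        rw [inv_pow, hx, inv_one] }
  rcases hirr M (by
    intro h m hm
    show (h • m) ^ s = 1
    rw [← smul_pow', show m ^ s = 1 from hm, smul_one]) with h | h
  · exfalso
    obtain ⟨n, hn0, hn⟩ := hs.nontrivial_iff_card.1 inferInstance
    obtain ⟨x, hx⟩ := exists_prime_orderOf_dvd_card' s (G := N) (hn ▸ dvd_pow_self s hn0.ne')
    have h2 : x ∈ M := by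
      show x ^ s = 1
      rw [← hx, pow_orderOf_eq_one]
    rw [h, Subgroup.mem_bot] at h2
    rw [h2, orderOf_one] at hx
    exact (Fact.out : s.Prime).one_lt.ne hx
  · intro a
    have : a ∈ M := by rw [h]; exact Subgroup.mem_top a
    exact this

end

end Pool.Agent.Lib.MP_79a223_al
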