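import Mathlib

/-!
# Primitive groups with a 2-transitive suborbit and a regular socle: definitions
-/

open Equiv

namespace Pool.Agent.Lib.MP_79a223_al

/-- A group with a nontrivial soluble normal subgroup. -/
def HasSolubleNormal (K : Type) [Group K] : Prop :=
  ∃ A : Subgroup K, A.Normal ∧ A ≠ ⊥ ∧ Group.IsSolvable A

/-- A 2-transitive group of permutations of a set with at least two elements. -/
def TwoTransitive {D : Type} (H : Subgroup (Perm D)) : Prop :=
  (∃ a b : D, a ≠ b) ∧ ∀ a b c d : D, a ≠ b → c ≠ d → ∃ s ∈ H, s a = c ∧ s b = d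

/-- The stabiliser of `α` in `G` has an orbit outside `α` with at least two elements on which it is 2-transitive. -/
def TwoTransitiveSuborbit {X : Type} (G : Subgroup (Perm X)) (α : X) : Prop :=
  ∃ S : Set X, α ∉ S ∧ (∃ x ∈ S, ∃ y ∈ S, x ≠ y) ∧ (∀ h ∈ G, h α = α → ∀ x ∈ S, h x ∈ S) ∧
    ∀ x ∈ S, ∀ y ∈ S, ∀ z ∈ S, ∀ w ∈ S, x ≠ y → z ≠ w → ∃ h ∈ G, h α = α ∧ h x = z ∧ h y = w

/-- `G` has a unique minimal normal subgroup `N`, and `N` is regular: it contains exactly one element taking `x` to `y`,
for all points `x`, `y`. -/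
def RegularUniqueMinimalNormal {X : Type} (G : Subgroup (Perm X)) : Prop :=
  ∃ N : Subgroup G, N.Normal ∧ N ≠ ⊥ ∧ (∀ M : Subgroup G, M.Normal → M ≠ ⊥ → N ≤ M) ∧
    ∀ x y : X, ∃! n : G, n ∈ N ∧ (n : Perm X) x = y

/-- The constant functions from `D` to the field with `p` elements. -/
def consts (D : Type) (p : ℕ) : Submodule (ZMod p) (D → ZMod p) := Submodule.span (ZMod p) {fun _ => 1}

/-- The functions from `D` to the field with `p` elements modulo the constant functions. -/
abbrev Quo (D : Type) (p : ℕ) : Type := (D → ZMod p) ⧸ consts D p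

/-- The action of a permutation `s` of `D` on functions: `f` goes to `f ∘ s⁻¹`. -/
def rho {D : Type} (p : ℕ) (s : Perm D) : (D → ZMod p) →ₗ[ZMod p] (D → ZMod p) :=
  LinearMap.funLeft (ZMod p) (ZMod p) (s⁻¹ : Perm D)

lemma rho_consts {D : Type} (p : ℕ) (s : Perm D) : consts D p ≤ (consts D p).comap (rho p s) := by
  rw [consts, Submodule.span_le, Set.singleton_subset_iff]
  exact Submodule.mem_span_singleton_self _

/-- The action of a permutation of `D` on the functions modulo the constants. -/
def act {D : Type} (p : ℕ) (s : Perm D) : Quo D p →ₗ[ZMod p] Quo D p :=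
  (consts D p).mapQ (consts D p) (rho p s) (rho_consts p s)

end Pool.Agent.Lib.MP_79a223_al
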