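import Pool.Agent.Lib.MP_79a223_al.Defs

/-!
# Primitive groups with a 2-transitive suborbit and a regular socle: invariant forms and lengths of suborbits
-/

open Equiv

namespace Pool.Agent.Lib.MP_79a223_al

/-- `G` is primitive, `N` is its unique minimal normal subgroup (a normal subgroup `≠ 1` contained in every normal
subgroup `≠ 1`), and `N` is regular: it contains exactly one element taking `x` to `y`, for all points `x`, `y`. -/
def RegularSocle {X : Type} (G : Subgroup (Perm X)) (N : Subgroup G) : Prop :=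
  MulAction.IsPreprimitive G X ∧ N.Normal ∧ N ≠ ⊥ ∧ (∀ M : Subgroup G, M.Normal → M ≠ ⊥ → N ≤ M) ∧
    ∀ x y : X, ∃! n : G, n ∈ N ∧ (n : Perm X) x = y

/-- `S` is an orbit of the stabiliser of `α` in `G`, it does not contain `α`, has at least two points, and the stabiliser
is 2-transitive on it. -/
def IsTwoTransitiveSuborbit {X : Type} (G : Subgroup (Perm X)) (α : X) (S : Set X) : Prop :=
  α ∉ S ∧ (∃ x ∈ S, ∃ y ∈ S, x ≠ y) ∧ (∀ h ∈ G, h α = α → ∀ x ∈ S, h x ∈ S) ∧
    ∀ x ∈ S, ∀ y ∈ S, ∀ z ∈ S, ∀ w ∈ S, x ≠ y → z ≠ w → ∃ h ∈ G, h α = α ∧ h x = z ∧ h y = w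

/-- For some point `β` of `S` there is a homomorphism from `N` to an abelian group, not constantly `1`, which is invariant
under conjugation by the elements of `G` fixing `α` and `β`. -/
def HasInvariantCharacter {X : Type} (G : Subgroup (Perm X)) (N : Subgroup G) (α : X) (S : Set X) : Prop :=
  ∃ β ∈ S, ∃ (C : Type) (_ : CommGroup C) (χ : N →* C), χ ≠ 1 ∧
    ∀ k : G, (k : Perm X) α = α → (k : Perm X) β = β → ∀ a a' : N, (a' : G) = k * a * k⁻¹ → χ a' = χ a

/-- There is a map `B` from `N × N` to an abelian group, multiplicative in each variable, not constantly `1`, and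
invariant under conjugation by the elements of `G` fixing `α`. -/
def HasInvariantForm {X : Type} (G : Subgroup (Perm X)) (N : Subgroup G) (α : X) : Prop :=
  ∃ (C : Type) (_ : CommGroup C) (B : N → N → C), (∀ a b c, B (a * b) c = B a c * B b c) ∧
    (∀ a b c, B a (b * c) = B a b * B a c) ∧ (∃ a b, B a b ≠ 1) ∧
    ∀ k : G, (k : Perm X) α = α → ∀ a b a' b' : N, (a' : G) = k * a * k⁻¹ → (b' : G) = k * b * k⁻¹ → B a' b' = B a b

/-- The functions modulo the constants have no subgroup invariant under `H` except `0` and the whole group. -/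
def QuoIrreducible {D : Type} (H : Subgroup (Perm D)) (p : ℕ) : Prop :=
  ∀ W : AddSubgroup (Quo D p), (∀ s ∈ H, ∀ w ∈ W, act p s w ∈ W) → W = ⊥ ∨ W = ⊤

end Pool.Agent.Lib.MP_79a223_al
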