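import Pool.Agent.Lib.MP_79a223_al.Defs

/-!
# Invariant submodules of the permutation module of an affine 2-transitive group
-/

open Equiv

namespace Pool.Agent.Lib.MP_79a223_al

lemma pinv {D : Type} (s : Perm D) (x : D) : s⁻¹ (s x) = x := s.symm_apply_apply x

lemma pinv' {D : Type} (s : Perm D) (x : D) : s (s⁻¹ x) = x := s.apply_symm_apply x

/-- a nontrivial soluble normal subgroup gives a nontrivial abelian one -/
lemma exists_abelian {K : Type} [Group K] (h : HasSolubleNormal K) :
    ∃ A : Subgroup K, A.Normal ∧ A ≠ ⊥ ∧ ∀ a ∈ A, ∀ b ∈ A, a * b = b * a := by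
  classical
  obtain ⟨A, hA, hne, hs⟩ := h
  obtain ⟨n, hn⟩ := hs.solvable
  have hex : ∃ n, derivedSeries A n = ⊥ := ⟨n, hn⟩
  obtain ⟨k, hk⟩ : ∃ k, Nat.find hex = k + 1 := by
    rcases Nat.eq_zero_or_pos (Nat.find hex) with h0 | h0
    · exfalso
      have h1 := Nat.find_spec hex
      rw [h0, derivedSeries_zero] at h1
      apply hne
      rw [eq_bot_iff]
      intro a ha
      have : (⟨a, ha⟩ : A) ∈ (⊤ : Subgroup A) := Subgroup.mem_top _
      rw [h1, Subgroup.mem_bot] at this
      exact Subgroup.mem_bot.2 (congrArg Subtype.val this)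
    · exact ⟨_, (Nat.succ_pred_eq_of_pos h0).symm⟩
  have hk1 : derivedSeries A k ≠ ⊥ := Nat.find_min hex (by omega)
  have hk2 : ⁅derivedSeries A k, derivedSeries A k⁆ = ⊥ := by
    have := Nat.find_spec hex
    rwa [hk, derivedSeries_succ] at this
  refine ⟨(derivedSeries A k).map A.subtype, inferInstance, ?_, ?_⟩
  · rwa [Ne, Subgroup.map_eq_bot_iff_of_injective _ A.subtype_injective]
  · rintro _ ⟨a, ha, rfl⟩ _ ⟨b, hb, rfl⟩
    have := Subgroup.commutator_mem_commutator ha hb
    rw [hk2, Subgroup.mem_bot] at this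
    have h2 := commutatorElement_eq_one_iff_mul_comm.1 this
    rw [← map_mul, ← map_mul, h2]

/-- an abelian nontrivial normal subgroup of a 2-transitive group is regular -/
lemma regular_of_twoTransitive {K D : Type} [Group K] (σ : K →* Perm D) (hinj : Function.Injective σ)
    (h2 : ∀ a b c d : D, a ≠ b → c ≠ d → ∃ s, σ s a = c ∧ σ s b = d) (A : Subgroup K) (hA : A.Normal)
    (hne : A ≠ ⊥) (hc : ∀ a ∈ A, ∀ b ∈ A, a * b = b * a) (x y : D) : ∃! a, a ∈ A ∧ σ a x = y := by
  have htr : ∀ x y : D, ∃ a ∈ A, σ a x = y := by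
    intro x y
    by_cases hxy : x = y
    · exact ⟨1, A.one_mem, by simp [hxy]⟩
    obtain ⟨a, ha1⟩ := Subgroup.ne_bot_iff_exists_ne_one.1 hne
    obtain ⟨z, hz⟩ : ∃ z, σ a z ≠ z := by
      by_contra hcon
      push Not at hcon
      apply ha1
      apply Subtype.ext
      apply hinj
      ext z
      simpa using hcon z
    obtain ⟨s, hs1, hs2⟩ := h2 z (σ a z) x y (Ne.symm hz) hxy
    refine ⟨s * a * s⁻¹, hA.conj_mem a a.2 s, ?_⟩
    rw [map_mul, map_mul, Perm.mul_apply, Perm.mul_apply, map_inv, ← hs1, pinv, hs2]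
  obtain ⟨a, ha, hax⟩ := htr x y
  refine ⟨a, ⟨ha, hax⟩, ?_⟩
  rintro b ⟨hb, hbx⟩
  apply hinj
  ext z
  obtain ⟨c, hcA, hcx⟩ := htr x z
  rw [← hcx, ← Perm.mul_apply, ← Perm.mul_apply, ← map_mul, ← map_mul, hc a ha c hcA, hc b hb c hcA, map_mul,
    map_mul, Perm.mul_apply, Perm.mul_apply, hax, hbx]

section

variable {D : Type} {p : ℕ}

lemma rho_apply (s : Perm D) (f : D → ZMod p) (x : D) : rho p s f x = f (s⁻¹ x) := rfl

lemma rho_mul (s t : Perm D) (f : D → ZMod p) : rho p (s * t) f = rho p s (rho p t f) := by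
  ext x; simp [rho_apply, mul_inv_rev]

lemma rho_one (f : D → ZMod p) : rho p (1 : Perm D) f = f := by
  ext x; simp [rho_apply]

lemma rho_inv_self (s : Perm D) (f : D → ZMod p) : rho p s⁻¹ (rho p s f) = f := by
  rw [← rho_mul, inv_mul_cancel, rho_one]

lemma rho_self_inv (s : Perm D) (f : D → ZMod p) : rho p s (rho p s⁻¹ f) = f := by
  rw [← rho_mul, mul_inv_cancel, rho_one]

lemma mem_consts {f : D → ZMod p} : f ∈ consts D p ↔ ∃ c : ZMod p, ∀ x, f x = c := by
  rw [consts, Submodule.mem_span_singleton]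
  constructor
  · rintro ⟨c, rfl⟩
    exact ⟨c, fun x => by simp⟩
  · rintro ⟨c, hc⟩
    exact ⟨c, by ext x; simp [hc x]⟩

variable [DecidableEq D]

lemma rho_single (s : Perm D) (d : D) (c : ZMod p) : rho p s (Pi.single d c) = Pi.single (s d) c := by
  ext x
  rw [rho_apply, Pi.single_apply, Pi.single_apply]
  congr 1
  rw [Perm.inv_eq_iff_eq, eq_comm, eq_comm (a := x)]

/-- every submodule invariant under a 2-transitive group with a regular abelian normal subgroup is contained in the
constants or contains all functions with sum zero -/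
lemma invariant_submodule [Fintype D] [Fact p.Prime] (hp : ¬ p ∣ Fintype.card D) (H : Subgroup (Perm D))
    (h2 : TwoTransitive H) (hs : HasSolubleNormal H) (U : Submodule (ZMod p) (D → ZMod p))
    (hU : ∀ s ∈ H, ∀ f ∈ U, rho p s f ∈ U) :
    U ≤ consts D p ∨ ∀ f : D → ZMod p, ∑ x, f x = 0 → f ∈ U := by
  obtain ⟨A, hAn, hAne, hAc⟩ := exists_abelian hs
  have hreg := regular_of_twoTransitive H.subtype H.subtype_injective (fun a b c d hab hcd => by
    obtain ⟨s, hs, h1, h2⟩ := h2.2 a b c d hab hcd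
    exact ⟨⟨s, hs⟩, h1, h2⟩) A hAn hAne hAc
  obtain ⟨⟨o, o', hoo⟩, h2t⟩ := h2
  choose t ht htu using hreg o
  simp only [and_imp, Subgroup.subtype_apply] at htu ht
  have htH : ∀ y, ((t y : H) : Perm D) ∈ H := fun y => (t y).2
  have hmul : ∀ x y, t ((t x : Perm D) y) = t x * t y := by
    intro x y
    refine (htu _ _ (A.mul_mem (ht x).1 (ht y).1) ?_).symm
    rw [Subgroup.coe_mul, Perm.mul_apply, (ht y).2]
  have hcomm : ∀ x y, t x * t y = t y * t x := fun x y => hAc _ (ht x).1 _ (ht y).1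
  have hconj : ∀ h ∈ H, h o = o → ∀ y, h * (t y : Perm D) = (t (h y) : Perm D) * h := by
    intro h hh ho y
    have h1 : (⟨h, hh⟩ : H) * t y * (⟨h, hh⟩ : H)⁻¹ = t (h y) := by
      refine htu _ _ (hAn.conj_mem _ (ht y).1 _) ?_
      simp only [Subgroup.coe_mul, Perm.mul_apply, Subgroup.coe_inv]
      rw [Perm.inv_eq_iff_eq.2 ho.symm, (ht y).2]
    rw [← h1]
    simp
  have hn : (Fintype.card D : ZMod p) ≠ 0 := by
    rwa [Ne, ZMod.natCast_eq_zero_iff]
  -- the convolution
  let conv : (D → ZMod p) → (D → ZMod p) → (D → ZMod p) := fun f g => ∑ y, f y • rho p (t y : Perm D) g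
  have conv_apply : ∀ f g x, conv f g x = ∑ y, f y * g ((t y : Perm D)⁻¹ x) := by
    intro f g x
    simp only [conv, Finset.sum_apply, Pi.smul_apply, smul_eq_mul, rho_apply]
  have hinv : ∀ x, Function.Involutive (fun y => (t y : Perm D)⁻¹ x) := by
    intro x y
    have h1 : t x = t y * t ((t y : Perm D)⁻¹ x) := by
      rw [← hmul, pinv']
    have h2 : t ((t y : Perm D)⁻¹ x) = (t y)⁻¹ * t x := by rw [h1]; group
    show ((t ((t y : Perm D)⁻¹ x) : H) : Perm D)⁻¹ x = y
    rw [h2, Subgroup.coe_mul, mul_inv_rev, Subgroup.coe_inv, inv_inv, Perm.mul_apply]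
    rw [Perm.inv_eq_iff_eq]
    conv_lhs => rw [← (ht x).2]
    rw [← Perm.mul_apply, ← Subgroup.coe_mul, hcomm, Subgroup.coe_mul, Perm.mul_apply, (ht y).2]
  have conv_comm : ∀ f g, conv f g = conv g f := by
    intro f g
    ext x
    rw [conv_apply, conv_apply]
    refine Fintype.sum_equiv (hinv x).toPerm _ _ (fun y => ?_)
    have := hinv x y
    simp only at this
    rw [Function.Involutive.coe_toPerm, this, mul_comm]
  have conv_single : ∀ g : D → ZMod p, ∑ y, g y • (Pi.single y 1 : D → ZMod p) = g := by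
    intro g
    ext x
    simp [Finset.sum_apply, Pi.single_apply]
  -- an equivariant projection
  obtain ⟨q, hq⟩ := LinearMap.exists_leftInverse_of_injective U.subtype U.ker_subtype
  let F : D → (D → ZMod p) →ₗ[ZMod p] (D → ZMod p) := fun z =>
    rho p (t z : Perm D) ∘ₗ U.subtype ∘ₗ q ∘ₗ rho p (t z : Perm D)⁻¹
  let P : (D → ZMod p) →ₗ[ZMod p] (D → ZMod p) := (Fintype.card D : ZMod p)⁻¹ • ∑ z, F z
  have hP : ∀ f, P f = (Fintype.card D : ZMod p)⁻¹ • ∑ z, F z f := by
    intro f
    simp only [P, LinearMap.smul_apply, LinearMap.sum_apply]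
  have hFU : ∀ z f, F z f ∈ U := by
    intro z f
    exact hU _ (htH z) _ (q _).2
  have hPU : ∀ f, P f ∈ U := by
    intro f
    rw [hP]
    exact U.smul_mem _ (U.sum_mem fun z _ => hFU z f)
  have hPid : ∀ g ∈ U, P g = g := by
    intro g hg
    have : ∀ z, F z g = g := by
      intro z
      have h1 : rho p (t z : Perm D)⁻¹ g ∈ U := hU _ (H.inv_mem (htH z)) g hg
      have h2 : U.subtype (q (rho p (t z : Perm D)⁻¹ g)) = rho p (t z : Perm D)⁻¹ g := by
        have := LinearMap.congr_fun hq ⟨_, h1⟩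
        simp only [LinearMap.comp_apply, LinearMap.id_apply, Submodule.subtype_apply] at this
        rw [this]
        rfl
      show rho p (t z : Perm D) (U.subtype (q (rho p (t z : Perm D)⁻¹ g))) = g
      rw [h2, rho_self_inv]
    rw [hP, Finset.sum_congr rfl (fun z _ => this z), Finset.sum_const, Finset.card_univ, ← Nat.cast_smul_eq_nsmul (ZMod p),
      smul_smul, inv_mul_cancel₀ hn, one_smul]
  have hPeq : ∀ x f, P (rho p (t x : Perm D) f) = rho p (t x : Perm D) (P f) := by
    intro x f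
    rw [hP, hP, map_smul, map_sum]
    congr 1
    refine (Fintype.sum_equiv (t x : Perm D) _ _ (fun y => ?_)).symm
    show rho p (t x : Perm D) (rho p (t y : Perm D) (U.subtype (q (rho p (t y : Perm D)⁻¹ f)))) =
      rho p (t ((t x : Perm D) y) : Perm D) (U.subtype (q (rho p (t ((t x : Perm D) y) : Perm D)⁻¹ (rho p (t x : Perm D) f))))
    rw [hmul, ← rho_mul, ← rho_mul, Subgroup.coe_mul, mul_inv_rev, mul_assoc, inv_mul_cancel, mul_one]
  let e : D → ZMod p := P (Pi.single o 1)
  have heU : e ∈ U := hPU _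
  have he : ∀ g ∈ U, conv g e = g := by
    intro g hg
    have : conv g e = P (∑ y, g y • (Pi.single y 1 : D → ZMod p)) := by
      rw [map_sum]
      refine Finset.sum_congr rfl (fun y _ => ?_)
      rw [map_smul, ← hPeq, rho_single, (ht y).2]
    rw [this, conv_single, hPid g hg]
  have hinvar : ∀ h ∈ H, h o = o → rho p h e = e := by
    intro h hh ho
    have h1 : rho p h e ∈ U := hU h hh e heU
    have h2 : ∀ g ∈ U, conv g (rho p h e) = g := by
      intro g hg
      have h3 : rho p h⁻¹ g ∈ U := hU _ (H.inv_mem hh) g hg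
      have h4 : conv g (rho p h e) = rho p h (conv (rho p h⁻¹ g) e) := by
        simp only [conv, map_sum, map_smul]
        refine (Fintype.sum_equiv h _ _ (fun y => ?_)).symm
        rw [rho_apply, inv_inv, ← rho_mul, ← rho_mul, hconj h hh ho]
      rw [h4, he _ h3, rho_self_inv]
    rw [← he _ h1, conv_comm, h2 e heU]
  have heβ : ∀ x, x ≠ o → e x = e o' := by
    intro x hx
    obtain ⟨h, hh, ho, hx'⟩ := h2t o x o o' (Ne.symm hx) hoo
    have := congrFun (hinvar h hh ho) o'
    rw [rho_apply, ← hx', pinv] at this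
    rw [this, hx']
  have hform : ∀ g x, conv g e x = (e o - e o') * g x + e o' * ∑ y, g y := by
    intro g x
    rw [conv_apply, Finset.mul_sum]
    have h1 : ∀ y, g y * e ((t y : Perm D)⁻¹ x) = (if y = x then (e o - e o') * g x else 0) + e o' * g y := by
      intro y
      by_cases hyx : y = x
      · subst hyx
        have : (t y : Perm D)⁻¹ y = o := by rw [Perm.inv_eq_iff_eq, (ht y).2]
        rw [this, if_pos rfl]
        ring
      · have : (t y : Perm D)⁻¹ x ≠ o := by
          intro h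
          rw [Perm.inv_eq_iff_eq, (ht y).2] at h
          exact hyx h.symm
        rw [heβ _ this, if_neg hyx]
        ring
    rw [Finset.sum_congr rfl (fun y _ => h1 y), Finset.sum_add_distrib, Finset.sum_ite_eq' Finset.univ x]
    simp
  by_cases hall : U ≤ consts D p
  · exact Or.inl hall
  right
  obtain ⟨f, hf, hfc⟩ := Set.not_subset.1 hall
  have hfc' : ∃ x, f x ≠ f o := by
    by_contra hcon
    push Not at hcon
    exact hfc (mem_consts.2 ⟨f o, hcon⟩)
  obtain ⟨x, hx⟩ := hfc'
  have e1 := congrFun (he f hf) x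
  have e2 := congrFun (he f hf) o
  rw [hform] at e1 e2
  have e3 : e o - e o' = 1 := by
    have h3 : (e o - e o') * (f x - f o) = 1 * (f x - f o) := by linear_combination e1 - e2
    exact mul_right_cancel₀ (sub_ne_zero.2 hx) h3
  intro g hg
  have : conv g e = g := by
    ext x
    rw [hform, hg, e3]
    ring
  rw [← this]
  exact U.sum_mem fun y _ => U.smul_mem _ (hU _ (htH y) _ heU)

end

end Pool.Agent.Lib.MP_79a223_al
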