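import Pool.Agent.Lib.MP_79a223_al.Core

/-!
# Homomorphisms to abelian groups and functionals over the prime field
-/

open Equiv

namespace Pool.Agent.Lib.MP_79a223_al

/-- a nonzero homomorphism from a vector space over a prime field to an abelian group gives a nonzero functional -/
lemma functional_reduce {V C : Type} [AddCommGroup V] {p : ℕ} [Fact p.Prime] [Module (ZMod p) V] [AddCommGroup C]
    (χ : V →+ C) (hne : ∃ v, χ v ≠ 0) :
    ∃ l : V →ₗ[ZMod p] ZMod p, (∃ v, l v ≠ 0) ∧ ∀ v w, χ v = χ w → l v = l w := by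
  classical
  let P : AddSubgroup C := (nsmulAddMonoidHom (α := C) p).ker
  have hPmem : ∀ c, c ∈ P ↔ p • c = 0 := fun c => Iff.rfl
  let iM : Module (ZMod p) P := AddCommGroup.zmodModule (n := p) (fun c => Subtype.ext c.2)
  have hχP : ∀ v, χ v ∈ P := by
    intro v
    rw [hPmem, ← map_nsmul]
    have : p • v = 0 := by
      rw [← Nat.cast_smul_eq_nsmul (ZMod p), ZMod.natCast_self, zero_smul]
    rw [this, map_zero]
  obtain ⟨v0, hv0⟩ := hne
  obtain ⟨φ, hφ⟩ : ∃ φ : Module.Dual (ZMod p) P, φ ⟨χ v0, hχP v0⟩ ≠ 0 := by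
    by_contra hcon
    push Not at hcon
    have := (Module.forall_dual_apply_eq_zero_iff (ZMod p) _).1 hcon
    exact hv0 (congrArg Subtype.val this)
  let l : V →ₗ[ZMod p] ZMod p :=
    AddMonoidHom.toZModLinearMap p (AddMonoidHom.mk' (fun v => φ ⟨χ v, hχP v⟩) (by
      intro b c
      rw [← map_add]
      congr 1
      exact Subtype.ext (map_add χ b c)))
  have hl : ∀ v, l v = φ ⟨χ v, hχP v⟩ := fun v => rfl
  refine ⟨l, ⟨v0, ?_⟩, ?_⟩
  · rw [hl]
    exact hφ
  · intro v w h
    rw [hl, hl]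
    congr 2

end Pool.Agent.Lib.MP_79a223_al
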