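import Pool.Agent.Lib.MP_79a223_al.Lin

/-!
# Irreducible actions on finite groups with an affine 2-transitive orbit
-/

open Equiv Pointwise

namespace Pool.Agent.Lib.MP_79a223_al

lemma HasSolubleNormal.of_equiv {K L : Type} [Group K] [Group L] (f : K ≃* L) (h : HasSolubleNormal K) :
    HasSolubleNormal L := by
  obtain ⟨A, hA, hne, hs⟩ := h
  refine ⟨A.map f.toMonoidHom, hA.map _ f.surjective, ?_, ?_⟩
  · rwa [Ne, Subgroup.map_eq_bot_iff_of_injective _ f.injective]
  · exact Group.isSolvable_of_surjective (f := (f.subgroupMap A).toMonoidHom) (f.subgroupMap A).surjective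

/-- the permutation induced on an invariant set -/
def resPerm {H N : Type} [Group H] [MulAction H N] (S : Set N) (hS : ∀ h : H, ∀ x ∈ S, h • x ∈ S) :
    H →* Perm S where
  toFun h :=
    { toFun := fun x => ⟨h • x.1, hS h x x.2⟩
      invFun := fun x => ⟨h⁻¹ • x.1, hS h⁻¹ x x.2⟩
      left_inv := fun x => Subtype.ext (by simp)
      right_inv := fun x => Subtype.ext (by simp) }
  map_one' := by
    ext x
    simp
  map_mul' := by
    intro a b
    ext x
    simp [mul_smul]

lemma resPerm_apply {H N : Type} [Group H] [MulAction H N] (S : Set N) (hS : ∀ h : H, ∀ x ∈ S, h • x ∈ S) (h : H)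
    (x : S) : ((resPerm S hS h x : S) : N) = h • x.1 := rfl

/-- the abstract form of the classification -/
theorem classify {H N : Type} [Group H] [Group N] [MulDistribMulAction H N] [Finite N]
    (hfaith : ∀ h : H, (∀ n : N, h • n = n) → h = 1)
    (hirr : ∀ M : Subgroup N, (∀ h : H, ∀ m ∈ M, h • m ∈ M) → M = ⊥ ∨ M = ⊤)
    (S : Set N) (h1 : (1 : N) ∉ S) (hxy : ∃ x ∈ S, ∃ y ∈ S, x ≠ y) (hS : ∀ h : H, ∀ x ∈ S, h • x ∈ S)
    (h2 : ∀ x ∈ S, ∀ y ∈ S, ∀ z ∈ S, ∀ w ∈ S, x ≠ y → z ≠ w → ∃ h : H, h • x = z ∧ h • y = w)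
    (hsol : HasSolubleNormal H) :
    ∃ (D : Type) (_ : Fintype D) (σ : H →* Perm D) (p : ℕ), p.Prime ∧ ¬ p ∣ Fintype.card D ∧
      TwoTransitive σ.range ∧ HasSolubleNormal σ.range ∧
      ∃ e : N ≃ Quo D p, (∀ m n, e (m * n) = e m + e n) ∧ ∀ (h : H) (n : N), e (h • n) = act p (σ h) (e n) := by
  classical
  have : Fintype S := Fintype.ofFinite S
  obtain ⟨x0, hx0, y0, hy0, hxy0⟩ := hxy
  have hnt : Nontrivial N := ⟨x0, y0, hxy0⟩
  set σ : H →* Perm S := resPerm S hS with hσ
  -- `S` generates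
  have hcl : Subgroup.closure S = ⊤ := by
    rcases hirr (Subgroup.closure S) (by
      intro h m hm
      have h3 : (Subgroup.closure S) ≤ (Subgroup.closure S).comap (MulDistribMulAction.toMonoidHom N h) := by
        rw [Subgroup.closure_le]
        intro x hx
        exact Subgroup.subset_closure (hS h x hx)
      exact h3 hm) with h | h
    · exfalso
      have : x0 ∈ Subgroup.closure S := Subgroup.subset_closure hx0
      rw [h, Subgroup.mem_bot] at this
      exact h1 (this ▸ hx0)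
    · exact h
  have hσinj : Function.Injective σ := by
    rw [injective_iff_map_eq_one]
    intro h hh
    apply hfaith
    intro n
    have h3 : (Subgroup.closure S) ≤ (MulDistribMulAction.toMonoidHom N h).eqLocus (MonoidHom.id N) := by
      rw [Subgroup.closure_le]
      intro x hx
      have := congrArg Subtype.val (Perm.congr_fun hh ⟨x, hx⟩)
      exact this
    have h4 : n ∈ Subgroup.closure S := by rw [hcl]; exact Subgroup.mem_top n
    exact h3 h4
  have h2t : ∀ a b c d : S, a ≠ b → c ≠ d → ∃ s, σ s a = c ∧ σ s b = d := by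
    intro a b c d hab hcd
    obtain ⟨h, hh1, hh2⟩ := h2 a a.2 b b.2 c c.2 d d.2 (fun h => hab (Subtype.ext h)) (fun h => hcd (Subtype.ext h))
    exact ⟨h, Subtype.ext hh1, Subtype.ext hh2⟩
  obtain ⟨A, hA, hne, hAc⟩ := exists_abelian hsol
  have hreg := regular_of_twoTransitive σ hσinj h2t A hA hne hAc
  -- the regular normal subgroup is finite
  have hAS : Nonempty (A ≃ S) := by
    refine ⟨Equiv.ofBijective (fun a => σ (a : H) ⟨x0, hx0⟩) ⟨?_, ?_⟩⟩
    · intro a b hab
      obtain ⟨c, -, hc⟩ := hreg ⟨x0, hx0⟩ (σ (b : H) ⟨x0, hx0⟩)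
      exact Subtype.ext ((hc a ⟨a.2, hab⟩).trans (hc b ⟨b.2, rfl⟩).symm)
    · intro y
      obtain ⟨c, ⟨hc1, hc2⟩, -⟩ := hreg ⟨x0, hx0⟩ y
      exact ⟨⟨c, hc1⟩, hc2⟩
  obtain ⟨eAS⟩ := hAS
  have : Finite A := Finite.of_equiv S eAS.symm
  have hcardA : 1 < Nat.card A := by
    rw [Nat.card_congr eAS]
    have : Nontrivial S := ⟨⟨x0, hx0⟩, ⟨y0, hy0⟩, fun h => hxy0 (congrArg Subtype.val h)⟩
    exact Finite.one_lt_card
  obtain ⟨r, hr, hrA⟩ := Nat.exists_prime_and_dvd hcardA.ne'
  have : Fact r.Prime := ⟨hr⟩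
  obtain ⟨a0, ha0⟩ := exists_prime_orderOf_dvd_card' r hrA
  have ha01 : a0 ≠ 1 := by
    intro h
    rw [h, orderOf_one] at ha0
    exact hr.one_lt.ne ha0
  have hmove : ∀ a : A, a ≠ 1 → σ (a : H) ⟨x0, hx0⟩ ≠ ⟨x0, hx0⟩ := by
    intro a ha h
    obtain ⟨c, -, hc⟩ := hreg ⟨x0, hx0⟩ ⟨x0, hx0⟩
    apply ha
    exact Subtype.ext ((hc a ⟨a.2, h⟩).trans (hc 1 ⟨A.one_mem, by simp⟩).symm)
  have hAr : ∀ b : A, b ^ r = 1 := by
    intro b
    by_cases hb : b = 1
    · rw [hb, one_pow]
    obtain ⟨s, hs1, hs2⟩ := h2t ⟨x0, hx0⟩ (σ (a0 : H) ⟨x0, hx0⟩) ⟨x0, hx0⟩ (σ (b : H) ⟨x0, hx0⟩)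
      (hmove a0 ha01).symm (hmove b hb).symm
    have hconj : s * a0 * s⁻¹ = (b : H) := by
      obtain ⟨c, -, hc⟩ := hreg ⟨x0, hx0⟩ (σ (b : H) ⟨x0, hx0⟩)
      refine (hc _ ⟨hA.conj_mem _ a0.2 s, ?_⟩).trans (hc b ⟨b.2, rfl⟩).symm
      rw [map_mul, map_mul, Perm.mul_apply, Perm.mul_apply, map_inv, Perm.inv_eq_iff_eq.2 hs1.symm, hs2]
    apply Subtype.ext
    have h5 : (a0 : H) ^ r = 1 := by
      have := pow_orderOf_eq_one a0
      rw [ha0] at this
      exact congrArg Subtype.val this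
    rw [Subgroup.coe_pow, ← hconj, conj_pow, h5]
    simp
  have hApg : IsPGroup r A := fun b => ⟨1, by rw [pow_one]; exact hAr b⟩
  obtain ⟨p, hp, hpr, hpN⟩ := exists_prime hfaith hirr A hA hne r hApg
  have : Fact p.Prime := ⟨hp⟩
  obtain ⟨hcomm, hexp⟩ := elementary hirr p hpN
  have hpS : ¬ p ∣ Fintype.card S := by
    rw [← Nat.card_eq_fintype_card, ← Nat.card_congr eAS]
    obtain ⟨n, hn⟩ := IsPGroup.iff_card.1 hApg
    rw [hn]
    intro h
    exact hpr ((Nat.prime_dvd_prime_iff_eq hp hr).1 (hp.dvd_of_dvd_pow h))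
  have h2r : TwoTransitive σ.range := by
    refine ⟨⟨⟨x0, hx0⟩, ⟨y0, hy0⟩, fun h => hxy0 (congrArg Subtype.val h)⟩, ?_⟩
    intro a b c d hab hcd
    obtain ⟨s, hs1, hs2⟩ := h2t a b c d hab hcd
    exact ⟨σ s, ⟨s, rfl⟩, hs1, hs2⟩
  have hsr : HasSolubleNormal σ.range := HasSolubleNormal.of_equiv (MonoidHom.ofInjective hσinj) hsol
  -- linear algebra
  let iC : AddCommGroup (Additive N) :=
    { (inferInstance : AddGroup (Additive N)) with
      add_comm := fun a b => congrArg Additive.ofMul (hcomm a.toMul b.toMul) }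
  obtain ⟨ε, hε1, hε2⟩ := linear_part (V := Additive N) (p := p) hpS (fun v => by
      have := hexp v.toMul
      exact congrArg Additive.ofMul this) σ (fun d => Additive.ofMul d.1)
    (fun a b hab => Subtype.ext (Additive.ofMul.injective hab))
    (fun h => { toFun := fun v => Additive.ofMul (h • v.toMul)
                map_zero' := congrArg Additive.ofMul (smul_one h)
                map_add' := fun a b => congrArg Additive.ofMul (smul_mul' h a.toMul b.toMul) })
    (fun h d => rfl) (by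
      rw [eq_top_iff]
      intro v _
      have h4 : v.toMul ∈ Subgroup.closure S := by rw [hcl]; exact Subgroup.mem_top _
      have h5 : ∀ n ∈ Subgroup.closure S,
          Additive.ofMul n ∈ AddSubgroup.closure (Set.range (fun d : S => Additive.ofMul d.1)) := by
        intro n hn
        induction hn using Subgroup.closure_induction with
        | mem x hx => exact AddSubgroup.subset_closure ⟨⟨x, hx⟩, rfl⟩
        | one => exact AddSubgroup.zero_mem _
        | mul x y _ _ hx hy => exact AddSubgroup.add_mem _ hx hy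
        | inv x _ hx => exact AddSubgroup.neg_mem _ hx
      exact h5 _ h4) (fun v hv => by
      have h7 := fixed_trivial hfaith hirr A hA hne v.toMul (fun a _ => congrArg Additive.toMul (hv a))
      exact congrArg Additive.ofMul h7) h2r hsr
  exact ⟨S, inferInstance, σ, p, hp, hpS, h2r, hsr, Additive.ofMul.trans ε, fun m n => hε1 _ _, fun h n => hε2 h _⟩

end Pool.Agent.Lib.MP_79a223_al
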