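import Pool.Agent.Lib.MP_79a223_al.Fwd

/-!
# Primitive groups with a regular normal subgroup and an affine suborbit
-/

open Equiv

namespace Pool.Agent.Lib.MP_79a223_al

/-- the groups of the classification -/
def IsAffineExample {Ω : Type} (G : Subgroup (Perm Ω)) : Prop :=
  ∃ (D : Type) (_ : Fintype D) (H : Subgroup (Perm D)) (p : ℕ), p.Prime ∧ ¬ p ∣ Fintype.card D ∧
    TwoTransitive H ∧ HasSolubleNormal H ∧
    ∃ e : Ω ≃ Quo D p, ∀ g : Perm Ω, g ∈ G ↔ ∃ s ∈ H, ∃ w : Quo D p, ∀ x, e (g x) = act p s (e x) + w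

theorem forward {Ω : Type} [Finite Ω] (G : Subgroup (Perm Ω)) (hprim : MulAction.IsPreprimitive G Ω)
    (hN : RegularUniqueMinimalNormal G) (α : Ω) (hS : TwoTransitiveSuborbit G α)
    (hsol : HasSolubleNormal (MulAction.stabilizer G α)) : IsAffineExample G := by
  classical
  obtain ⟨N, hNn, hNne, -, hreg⟩ := hN
  obtain ⟨S, hαS, ⟨x0, hx0, y0, hy0, hxy0⟩, hSinv, hS2⟩ := hS
  have hntΩ : Nontrivial Ω := ⟨x0, y0, hxy0⟩
  set K := MulAction.stabilizer G α with hK
  have hKmem : ∀ g : G, g ∈ K ↔ (g : Perm Ω) α = α := fun g => Iff.rfl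
  let iA : MulDistribMulAction K N :=
    MulDistribMulAction.compHom N ((MulAut.conjNormal : G →* MulAut N).comp K.subtype)
  have hsm : ∀ (k : K) (n : N), (((k • n : N) : G) : Perm Ω) = (k : G) * (n : G) * ((k : G) : Perm Ω)⁻¹ := by
    intro k n
    rfl
  have hki : ∀ k : K, ((k : G) : Perm Ω)⁻¹ α = α := by
    intro k
    rw [Perm.inv_eq_iff_eq]
    exact ((hKmem _).1 k.2).symm
  have hsmα : ∀ (k : K) (n : N), ((k • n : N) : G).1 α = (k : G).1 ((n : G).1 α) := by
    intro k n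
    rw [hsm, Perm.mul_apply, Perm.mul_apply, hki]
  have huniq : ∀ m n : N, (m : G).1 α = (n : G).1 α → m = n := by
    intro m n hmn
    obtain ⟨c, -, hc⟩ := hreg α ((n : G).1 α)
    exact Subtype.ext ((hc m ⟨m.2, hmn⟩).trans (hc n ⟨n.2, rfl⟩).symm)
  have hex : ∀ y, ∃ n : N, (n : G).1 α = y := by
    intro y
    obtain ⟨c, ⟨hc1, hc2⟩, -⟩ := hreg α y
    exact ⟨⟨c, hc1⟩, hc2⟩
  let β : N ≃ Ω := Equiv.ofBijective (fun n => (n : G).1 α) ⟨fun m n h => huniq m n h, hex⟩
  have hβ : ∀ n, β n = (n : G).1 α := fun n => rfl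
  -- decomposition
  have hdec : ∀ g : G, ∃ (n : N) (k : K), g = n * k := by
    intro g
    obtain ⟨n, hn⟩ := hex (g.1 α)
    refine ⟨n, ⟨(n : G)⁻¹ * g, ?_⟩, by simp⟩
    rw [hKmem, Subgroup.coe_mul, Perm.mul_apply, ← hn, Subgroup.coe_inv, pinv]
  have hfaith : ∀ k : K, (∀ n : N, k • n = n) → k = 1 := by
    intro k hk
    apply Subtype.ext
    apply Subtype.ext
    ext x
    obtain ⟨n, rfl⟩ := hex x
    rw [← hsmα, hk]
    rfl
  have hirr : ∀ M : Subgroup N, (∀ k : K, ∀ m ∈ M, k • m ∈ M) → M = ⊥ ∨ M = ⊤ := by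
    intro M hM
    have hsmG : ∀ (k : K) (n : N), ((k • n : N) : G) = k * n * (k : G)⁻¹ := fun k n => rfl
    let L : Subgroup G :=
      { carrier := {g | ∃ m ∈ M, ∃ k : K, g = m * k}
        mul_mem' := by
          rintro _ _ ⟨m, hm, k, rfl⟩ ⟨m', hm', k', rfl⟩
          refine ⟨m * k • m', M.mul_mem hm (hM _ _ hm'), k * k', ?_⟩
          rw [Subgroup.coe_mul, hsmG, Subgroup.coe_mul]
          group
        one_mem' := ⟨1, M.one_mem, 1, by simp⟩
        inv_mem' := by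
          rintro _ ⟨m, hm, k, rfl⟩
          refine ⟨k⁻¹ • m⁻¹, hM _ _ (M.inv_mem hm), k⁻¹, ?_⟩
          rw [hsmG, Subgroup.coe_inv, Subgroup.coe_inv]
          group }
    have hLmem : ∀ g, g ∈ L ↔ ∃ m ∈ M, ∃ k : K, g = m * k := fun g => Iff.rfl
    have hKL : K ≤ L := by
      intro k hk
      exact ⟨1, M.one_mem, ⟨k, hk⟩, by simp⟩
    have hcoat : IsCoatom K := MulAction.IsPreprimitive.isCoatom_stabilizer_of_isPreprimitive G α
    rcases hcoat.le_iff.1 hKL with h | h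
    · right
      rw [eq_top_iff]
      intro n _
      have : (n : G) ∈ L := by rw [h]; exact Subgroup.mem_top _
      obtain ⟨m, hm, k, hk⟩ := this
      have h1 : n = m := by
        apply huniq
        rw [hk, Subgroup.coe_mul, Perm.mul_apply]
        congr 1
        exact (hKmem _).1 k.2
      rw [h1]
      exact hm
    · left
      rw [eq_bot_iff]
      intro m hm
      have : (m : G) ∈ L := ⟨m, hm, 1, by simp⟩
      rw [h, hKmem] at this
      exact Subgroup.mem_bot.2 (huniq m 1 this)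
  have : Finite N := Finite.of_equiv Ω β.symm
  obtain ⟨D, iD, σ, p, hp, hpD, h2, hs, ε, hε1, hε2⟩ := classify (H := K) (N := N) hfaith hirr {n | (n : G).1 α ∈ S}
    hαS (by
      obtain ⟨n, hn⟩ := hex x0
      obtain ⟨m, hm⟩ := hex y0
      refine ⟨n, ?_, m, ?_, ?_⟩
      · show (n : G).1 α ∈ S
        rw [hn]
        exact hx0
      · show (m : G).1 α ∈ S
        rw [hm]
        exact hy0
      · rintro rfl
        exact hxy0 (hn.symm.trans hm)) (by
      intro k n hn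
      show ((k • n : N) : G).1 α ∈ S
      rw [hsmα]
      exact hSinv _ (k : G).2 ((hKmem _).1 k.2) _ hn) (by
      intro x hx y hy z hz w hw hxy hzw
      obtain ⟨k, hkG, hkα, hk1, hk2⟩ := hS2 _ hx _ hy _ hz _ hw (fun h => hxy (huniq _ _ h)) (fun h => hzw (huniq _ _ h))
      refine ⟨⟨⟨k, hkG⟩, hkα⟩, huniq _ _ ?_, huniq _ _ ?_⟩
      · rw [hsmα]
        exact hk1
      · rw [hsmα]
        exact hk2) hsol
  refine ⟨D, iD, σ.range, p, hp, hpD, h2, hs, β.symm.trans ε, ?_⟩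
  have hcomp : ∀ (n : N) (k : K) (x : Ω), (β.symm.trans ε) (((n : G).1 * (k : G).1) x) =
      act p (σ k) ((β.symm.trans ε) x) + ε n := by
    intro n k x
    obtain ⟨m, rfl⟩ := β.surjective x
    have h1 : ((n : G).1 * (k : G).1) (β m) = β (n * k • m) := by
      rw [hβ, hβ, Subgroup.coe_mul, Subgroup.coe_mul, Perm.mul_apply, Perm.mul_apply, hsmα]
    rw [h1, Equiv.trans_apply, Equiv.trans_apply, Equiv.symm_apply_apply, Equiv.symm_apply_apply, hε1, hε2, add_comm]
  intro g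
  constructor
  · intro hg
    obtain ⟨n, k, hnk⟩ := hdec ⟨g, hg⟩
    have hg' : g = (n : G).1 * (k : G).1 := congrArg Subtype.val hnk
    exact ⟨σ k, ⟨k, rfl⟩, ε n, fun x => by rw [hg', hcomp]⟩
  · rintro ⟨_, ⟨k, rfl⟩, w, hw⟩
    have hg' : g = (ε.symm w : G).1 * (k : G).1 := by
      ext x
      apply (β.symm.trans ε).injective
      rw [hw, hcomp, Equiv.apply_symm_apply]
    rw [hg']
    exact G.mul_mem (Subtype.prop _) (Subtype.prop _)

end Pool.Agent.Lib.MP_79a223_al
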