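import Pool.Agent.Lib.MP_79a223_al.Core

/-!
# Elementary abelian groups generated by a 2-transitive orbit: functionals
-/

open Equiv

namespace Pool.Agent.Lib.MP_79a223_al

section

variable {H V D : Type} [Group H] [AddCommGroup V] [Fintype D] {p : ℕ} [Fact p.Prime] [Module (ZMod p) V]

/-- if the only linear relations are the multiples of `∑ ι d = 0` then the module is the permutation module modulo the
constants -/
lemma lin_iso (σ : H →* Perm D) (ι : D → V)
    (L : H → (V →+ V)) (hL : ∀ h d, L h (ι d) = ι (σ h d))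
    (hgen : AddSubgroup.closure (Set.range ι) = ⊤) (hfix : ∀ v, (∀ h, L h v = v) → v = 0)
    (hker : ∀ f, Fintype.linearCombination (ZMod p) ι f = 0 → f ∈ consts D p) :
    ∃ ε : V ≃ Quo D p, (∀ v w, ε (v + w) = ε v + ε w) ∧ ∀ (h : H) (v : V), ε (L h v) = act p (σ h) (ε v) := by
  classical
  let ψ : (D → ZMod p) →ₗ[ZMod p] V := Fintype.linearCombination (ZMod p) ι
  have hψs : ∀ (d : D) (c : ZMod p), ψ (Pi.single d c) = c • ι d := by
    intro d c
    exact Fintype.linearCombination_apply_single (ZMod p) _ d c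
  have heq : ∀ h f, ψ (rho p (σ h) f) = L h (ψ f) := by
    intro h f
    have : ψ ∘ₗ rho p (σ h) = AddMonoidHom.toZModLinearMap p (L h) ∘ₗ ψ := by
      apply LinearMap.pi_ext
      intro d c
      rw [LinearMap.comp_apply, LinearMap.comp_apply, rho_single, hψs, hψs, map_smul,
        AddMonoidHom.coe_toZModLinearMap, hL]
    exact LinearMap.congr_fun this f
  have hsurj : Function.Surjective ψ := by
    intro v
    have h4 : v ∈ AddSubgroup.closure (Set.range ι) := by rw [hgen]; exact AddSubgroup.mem_top _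
    induction h4 using AddSubgroup.closure_induction with
    | mem x hx =>
      obtain ⟨d, rfl⟩ := hx
      exact ⟨Pi.single d 1, by rw [hψs, one_smul]⟩
    | zero => exact ⟨0, map_zero _⟩
    | add x y _ _ hx hy =>
      obtain ⟨f, hf⟩ := hx
      obtain ⟨g, hg⟩ := hy
      exact ⟨f + g, by rw [map_add, hf, hg]⟩
    | neg x _ hx =>
      obtain ⟨f, hf⟩ := hx
      exact ⟨-f, by rw [map_neg, hf]⟩
  have hone : ψ (fun _ => 1) = 0 := by
    apply hfix
    intro h
    have h5 := heq h (fun _ => 1)
    have h6 : rho p (σ h) (fun _ => (1 : ZMod p)) = fun _ => 1 := rfl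
    rw [h6] at h5
    exact h5.symm
  have hle : consts D p ≤ LinearMap.ker ψ := by
    rw [consts, Submodule.span_le, Set.singleton_subset_iff]
    exact hone
  let ℓ : Quo D p →ₗ[ZMod p] V := (consts D p).liftQ ψ hle
  have hℓ : ∀ f, ℓ (Submodule.Quotient.mk f) = ψ f := fun f => rfl
  have hℓb : Function.Bijective ℓ := by
    constructor
    · rw [injective_iff_map_eq_zero]
      intro v hv
      obtain ⟨f, rfl⟩ := Submodule.Quotient.mk_surjective _ v
      rw [hℓ] at hv
      rw [Submodule.Quotient.mk_eq_zero]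
      exact hker f hv
    · intro v
      obtain ⟨f, hf⟩ := hsurj v
      exact ⟨Submodule.Quotient.mk f, hf⟩
  have hℓa : ∀ h v, ℓ (act p (σ h) v) = L h (ℓ v) := by
    intro h v
    obtain ⟨f, rfl⟩ := Submodule.Quotient.mk_surjective _ v
    rw [act_mk, hℓ, hℓ, heq]
  let ε : V ≃ Quo D p := (Equiv.ofBijective ℓ hℓb).symm
  have hε : ∀ n, ℓ (ε n) = n := fun n => Equiv.ofBijective_apply_symm_apply ℓ hℓb _
  refine ⟨ε, ?_, ?_⟩
  · intro m n
    apply hℓb.1
    rw [hε, map_add ℓ, hε, hε]
  · intro h n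
    apply hℓb.1
    rw [hε, hℓa, hε]

/-- a nonzero equivariant family of functionals makes the relations trivial -/
lemma ker_of_functional (σ : H →* Perm D) (ι : D → V) (hι : Function.Injective ι)
    (L : H → (V →+ V)) (hL : ∀ h d, L h (ι d) = ι (σ h d)) (hfix : ∀ v, (∀ h, L h v = v) → v = 0)
    (hirr : ∀ W : AddSubgroup V, (∀ h, ∀ w ∈ W, L h w ∈ W) → W = ⊥ ∨ W = ⊤)
    (hne : ∃ a b : D, a ≠ b) (h2 : ∀ a b c d : D, a ≠ b → c ≠ d → ∃ h, σ h a = c ∧ σ h b = d)
    (Λ : D → (V →ₗ[ZMod p] ZMod p)) (hΛ0 : ∃ x v, Λ x v ≠ 0) (hΛ : ∀ h x v, Λ (σ h x) (L h v) = Λ x v) :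
    ¬ p ∣ Fintype.card D ∧ ∀ f, Fintype.linearCombination (ZMod p) ι f = 0 → f ∈ consts D p := by
  classical
  obtain ⟨o, o', hoo⟩ := hne
  -- the matrix of values
  have hdiag : ∀ x, Λ x (ι x) = Λ o (ι o) := by
    intro x
    obtain ⟨y, hy⟩ : ∃ y, x ≠ y := by
      by_cases h : x = o
      · exact ⟨o', h ▸ hoo⟩
      · exact ⟨o, h⟩
    obtain ⟨h, h1, -⟩ := h2 o o' x y hoo hy
    rw [← h1, ← hL, hΛ]
  have hoff : ∀ x y, y ≠ x → Λ y (ι x) = Λ o' (ι o) := by
    intro x y hxy
    obtain ⟨h, h1, h2⟩ := h2 o o' x y hoo (Ne.symm hxy)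
    rw [← h1, ← h2, ← hL, hΛ]
  set a := Λ o (ι o) with ha
  set b := Λ o' (ι o) with hb
  have hform : ∀ f y, Λ y (Fintype.linearCombination (ZMod p) ι f) = (a - b) * f y + b * ∑ x, f x := by
    intro f y
    rw [Fintype.linearCombination_apply, map_sum, Finset.mul_sum]
    have h1 : ∀ x, Λ y (f x • ι x) = (if x = y then (a - b) * f y else 0) + b * f x := by
      intro x
      rw [map_smul, smul_eq_mul]
      by_cases hxy : x = y
      · rw [if_pos hxy, hxy, hdiag]
        ring
      · rw [if_neg hxy, hoff x y (Ne.symm hxy)]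
        ring
    rw [Finset.sum_congr rfl (fun x _ => h1 x), Finset.sum_add_distrib, Finset.sum_ite_eq' Finset.univ y]
    simp
  -- vectors killed by all functionals are zero
  have hrad : ∀ v, (∀ y, Λ y v = 0) → v = 0 := by
    let R : AddSubgroup V :=
      { carrier := {v | ∀ y, Λ y v = 0}
        add_mem' := by
          intro v v' hv hv' w
          rw [map_add, hv, hv', add_zero]
        zero_mem' := by
          intro w
          rw [map_zero]
        neg_mem' := by
          intro v hv w
          rw [map_neg, hv, neg_zero] }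
    have hRmem : ∀ v, v ∈ R ↔ ∀ w, Λ w v = 0 := fun v => Iff.rfl
    intro v hv
    rcases hirr R (by
      intro h v hv w
      have h1 := hΛ h (σ h⁻¹ w) v
      rw [← Perm.mul_apply, ← map_mul, mul_inv_cancel, map_one, Perm.one_apply] at h1
      rw [h1]
      exact hv _) with h | h
    · have h5 : v ∈ R := hv
      rw [h] at h5
      exact AddSubgroup.mem_bot.1 h5
    · exfalso
      obtain ⟨x, v, hxv⟩ := hΛ0
      have h5 : v ∈ R := by rw [h]; exact AddSubgroup.mem_top v
      exact hxv (h5 x)
  have hab : a ≠ b := by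
    intro hab
    apply hoo
    apply hι
    rw [← sub_eq_zero]
    apply hrad
    intro y
    have h1 := hform (Pi.single o 1 - Pi.single o' 1) y
    rw [map_sub, Fintype.linearCombination_apply_single, Fintype.linearCombination_apply_single, one_smul, one_smul] at h1
    rw [h1, hab]
    simp [Finset.sum_sub_distrib, Pi.single_apply]
  have hcst : ∀ f, Fintype.linearCombination (ZMod p) ι f = 0 → f ∈ consts D p := by
    intro f hf
    refine mem_consts.2 ⟨f o, fun x => ?_⟩
    have h1 := hform f x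
    have h2 := hform f o
    rw [hf, map_zero] at h1 h2
    have h3 : (a - b) * (f x - f o) = 0 := by linear_combination h2 - h1
    rcases mul_eq_zero.1 h3 with h | h
    · exact absurd (sub_eq_zero.1 h) hab
    · exact sub_eq_zero.1 h
  refine ⟨?_, hcst⟩
  intro hdvd
  have hn : (Fintype.card D : ZMod p) = 0 := (ZMod.natCast_eq_zero_iff _ _).2 hdvd
  have hone : Fintype.linearCombination (ZMod p) ι (fun _ => 1) = 0 := by
    apply hfix
    intro h
    rw [Fintype.linearCombination_apply]
    simp only [one_smul]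
    rw [map_sum]
    simp only [hL]
    exact Equiv.sum_comp (σ h) ι
  have h1 := hform (fun _ => 1) o
  rw [hone, map_zero, Finset.sum_const, Finset.card_univ, nsmul_eq_mul, mul_one, hn, mul_one,
    mul_zero, add_zero] at h1
  exact hab (sub_eq_zero.1 h1.symm)

end

end Pool.Agent.Lib.MP_79a223_al
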