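import Pool.Agent.Lib.MP_79a223_al.Core

/-!
# Elementary abelian groups generated by a small 2-transitive orbit
-/

open Equiv

namespace Pool.Agent.Lib.MP_79a223_al

section

variable {H V D : Type} [Group H] [AddCommGroup V] [Fintype D] {p : ℕ} [Fact p.Prime] [Module (ZMod p) V]

/-- a small 2-transitive orbit has only trivial relations -/
lemma ker_of_small (σ : H →* Perm D) (ι : D → V) (hι : Function.Injective ι)
    (L : H → (V →+ V)) (hL : ∀ h d, L h (ι d) = ι (σ h d))
    (hgen : AddSubgroup.closure (Set.range ι) = ⊤) (hfix : ∀ v, (∀ h, L h v = v) → v = 0)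
    (hirr : ∀ W : AddSubgroup V, (∀ h, ∀ w ∈ W, L h w ∈ W) → W = ⊥ ∨ W = ⊤)
    (hne : ∃ a b : D, a ≠ b) (h2 : ∀ a b c d : D, a ≠ b → c ≠ d → ∃ h, σ h a = c ∧ σ h b = d)
    [Module.Finite (ZMod p) V] (hsmall : Fintype.card D ≤ 2 * Module.finrank (ZMod p) V) :
    ¬ p ∣ Fintype.card D ∧ ∀ f, Fintype.linearCombination (ZMod p) ι f = 0 → f ∈ consts D p := by
  classical
  obtain ⟨o, o', hoo⟩ := hne
  let ψ : (D → ZMod p) →ₗ[ZMod p] V := Fintype.linearCombination (ZMod p) ι
  have hψs : ∀ (d : D) (c : ZMod p), ψ (Pi.single d c) = c • ι d := by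
    intro d c
    exact Fintype.linearCombination_apply_single (ZMod p) _ d c
  have heq : ∀ h f, ψ (rho p (σ h) f) = L h (ψ f) := by
    intro h f
    have : ψ ∘ₗ rho p (σ h) = AddMonoidHom.toZModLinearMap p (L h) ∘ₗ ψ := by
      apply LinearMap.pi_ext
      intro d c
      rw [LinearMap.comp_apply, LinearMap.comp_apply, rho_single, hψs, hψs, map_smul,
        AddMonoidHom.coe_toZModLinearMap, hL]
    exact LinearMap.congr_fun this f
  have hsurj : Function.Surjective ψ := by
    intro v
    have h4 : v ∈ AddSubgroup.closure (Set.range ι) := by rw [hgen]; exact AddSubgroup.mem_top _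
    induction h4 using AddSubgroup.closure_induction with
    | mem x hx =>
      obtain ⟨d, rfl⟩ := hx
      exact ⟨Pi.single d 1, by rw [hψs, one_smul]⟩
    | zero => exact ⟨0, map_zero _⟩
    | add x y _ _ hx hy =>
      obtain ⟨f, hf⟩ := hx
      obtain ⟨g, hg⟩ := hy
      exact ⟨f + g, by rw [map_add, hf, hg]⟩
    | neg x _ hx =>
      obtain ⟨f, hf⟩ := hx
      exact ⟨-f, by rw [map_neg, hf]⟩
  have hone : ψ (fun _ => 1) = 0 := by
    apply hfix
    intro h
    have h5 := heq h (fun _ => 1)
    have h6 : rho p (σ h) (fun _ => (1 : ZMod p)) = fun _ => 1 := rfl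
    rw [h6] at h5
    exact h5.symm
  set U := LinearMap.ker ψ with hU
  have hUinv : ∀ h, ∀ f ∈ U, rho p (σ h) f ∈ U := by
    intro h f hf
    rw [hU, LinearMap.mem_ker] at hf ⊢
    rw [heq, hf, map_zero]
  have hdiff : ∀ x y : D, x ≠ y → (Pi.single x 1 - Pi.single y 1 : D → ZMod p) ∉ U := by
    intro x y hxy h
    rw [hU, LinearMap.mem_ker, map_sub, hψs, hψs, one_smul, one_smul, sub_eq_zero] at h
    exact hxy (hι h)
  -- the orthogonal complement of the relations
  let T : (D → ZMod p) →ₗ[ZMod p] (U →ₗ[ZMod p] ZMod p) :=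
    LinearMap.mk₂ (ZMod p) (fun (g : D → ZMod p) (f : U) => ∑ x, g x * f.1 x)
      (fun g g' f => by simp [add_mul, Finset.sum_add_distrib])
      (fun c g f => by simp [Finset.mul_sum, mul_assoc])
      (fun g f f' => by simp [mul_add, Finset.sum_add_distrib])
      (fun c g f => by simp [Finset.mul_sum, mul_left_comm])
  have hT : ∀ g (f : U), T g f = ∑ x, g x * f.1 x := fun g f => rfl
  set U' := LinearMap.ker T with hU'
  have hU'mem : ∀ g, g ∈ U' ↔ ∀ f ∈ U, ∑ x, g x * f x = 0 := by
    intro g
    rw [hU', LinearMap.mem_ker]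
    constructor
    · intro h f hf
      rw [← hT g ⟨f, hf⟩, h, LinearMap.zero_apply]
    · intro h
      ext f
      rw [hT]
      exact h f.1 f.2
  have hU'inv : ∀ h, ∀ g ∈ U', rho p (σ h) g ∈ U' := by
    intro h g hg
    rw [hU'mem] at hg ⊢
    intro f hf
    have h1 := hg (rho p (σ h⁻¹) f) (hUinv _ f hf)
    rw [← h1]
    rw [← Equiv.sum_comp (σ h)]
    refine Finset.sum_congr rfl fun x _ => ?_
    rw [rho_apply, rho_apply, pinv, map_inv, inv_inv]
  have hdim1 : Module.finrank (ZMod p) (LinearMap.range T) + Module.finrank (ZMod p) U' = Fintype.card D := by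
    rw [LinearMap.finrank_range_add_finrank_ker, Module.finrank_fintype_fun_eq_card]
  have hdim2 : Module.finrank (ZMod p) (LinearMap.range T) ≤ Module.finrank (ZMod p) U := by
    refine (Submodule.finrank_le _).trans ?_
    exact (Subspace.dual_finrank_eq (K := ZMod p) (V := U)).le
  have hdim3 : Module.finrank (ZMod p) V + Module.finrank (ZMod p) U = Fintype.card D := by
    have h1 := LinearMap.finrank_range_add_finrank_ker ψ
    rw [LinearMap.range_eq_top.2 hsurj, finrank_top, Module.finrank_fintype_fun_eq_card] at h1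
    exact h1
  have hcardo : ∀ f : D → ZMod p, ψ f = 0 ↔ f ∈ U := fun f => LinearMap.mem_ker.symm
  -- maximality of the relations
  have hmax : ∀ W : Submodule (ZMod p) (D → ZMod p), (∀ h, ∀ f ∈ W, rho p (σ h) f ∈ W) →
      W ≤ U ∨ ∀ f, ∃ g ∈ W, f - g ∈ U := by
    intro W hW
    rcases hirr ((W.map ψ).toAddSubgroup) (by
      rintro h _ ⟨f, hf, rfl⟩
      exact ⟨_, hW h f hf, heq h f⟩) with h | h
    · left
      intro f hf
      have h1 : ψ f ∈ (W.map ψ).toAddSubgroup := ⟨f, hf, rfl⟩
      rw [h] at h1
      exact (hcardo f).1 (AddSubgroup.mem_bot.1 h1)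
    · right
      intro f
      have h1 : ψ f ∈ (W.map ψ).toAddSubgroup := by rw [h]; exact AddSubgroup.mem_top _
      obtain ⟨g, hg, hgf⟩ := h1
      refine ⟨g, hg, (hcardo _).1 ?_⟩
      rw [map_sub, hgf, sub_self]
  -- the all-one function is not orthogonal to the relations
  have h1U' : (fun _ => 1 : D → ZMod p) ∉ U' := by
    intro h
    have hUZ : ∀ f ∈ U, ∑ x, f x = 0 := by
      intro f hf
      have := (hU'mem _).1 h f hf
      simpa using this
    let Z : Submodule (ZMod p) (D → ZMod p) := LinearMap.ker (∑ x, LinearMap.proj x : (D → ZMod p) →ₗ[ZMod p] ZMod p)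
    have hZ : ∀ f, f ∈ Z ↔ ∑ x, f x = 0 := by
      intro f
      rw [LinearMap.mem_ker, LinearMap.sum_apply]
      rfl
    rcases hmax Z (by
      intro h f hf
      rw [hZ] at hf ⊢
      rw [← hf]
      exact Equiv.sum_comp (σ h)⁻¹ f) with h | h
    · apply hdiff o o' hoo
      apply h
      rw [hZ]
      simp [Finset.sum_sub_distrib, Pi.single_apply]
    · obtain ⟨g, hg, hg2⟩ := h (Pi.single o 1)
      have h3 := hUZ _ hg2
      rw [hZ] at hg
      simp only [Pi.sub_apply, Finset.sum_sub_distrib] at h3
      rw [hg] at h3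
      simp [Pi.single_apply] at h3
  have h1U : (fun _ => 1 : D → ZMod p) ∈ U := hone
  rcases hmax U' hU'inv with h | h
  · exfalso
    have hlt : U' < U := lt_of_le_of_ne h (fun h => h1U' (h ▸ h1U))
    have := Submodule.finrank_lt_finrank_of_lt hlt
    omega
  · -- orthogonal decomposition
    have hcap : ∀ f, f ∈ U → f ∈ U' → f = 0 := by
      intro f hf hf'
      ext x
      obtain ⟨g, hg, hg2⟩ := h (Pi.single x 1)
      have h1 := (hU'mem g).1 hg f hf
      have h2 := (hU'mem f).1 hf' _ hg2
      have h3 : ∑ y, f y * (Pi.single x 1 : D → ZMod p) y = f x := by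
        simp [Pi.single_apply]
      have h4 : ∑ y, f y * (Pi.single x 1 - g : D → ZMod p) y =
          (∑ y, f y * (Pi.single x 1 : D → ZMod p) y) - ∑ y, g y * f y := by
        rw [← Finset.sum_sub_distrib]
        refine Finset.sum_congr rfl fun y _ => ?_
        rw [Pi.sub_apply]
        ring
      rw [h2, h3, h1, sub_zero] at h4
      exact h4.symm
    choose g hg hgU using h
    -- the component of a basis vector in the relations
    let u : D → (D → ZMod p) := fun x => Pi.single x 1 - g (Pi.single x 1)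
    have huU : ∀ x, u x ∈ U := fun x => hgU _
    have hueq : ∀ h x, rho p (σ h) (u x) = u (σ h x) := by
      intro h x
      rw [← sub_eq_zero]
      apply hcap
      · exact U.sub_mem (hUinv _ _ (huU x)) (huU _)
      · have h1 : rho p (σ h) (u x) - u (σ h x) =
            g (Pi.single (σ h x) 1) - rho p (σ h) (g (Pi.single x 1)) := by
          simp only [u]
          rw [map_sub, rho_single]
          abel
        rw [h1]
        exact U'.sub_mem (hg _) (hU'inv _ _ (hg _))
    have hudiag : ∀ x, u x x = u o o := by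
      intro x
      obtain ⟨y, hy⟩ : ∃ y, x ≠ y := by
        by_cases h : x = o
        · exact ⟨o', h ▸ hoo⟩
        · exact ⟨o, h⟩
      obtain ⟨h, h1, -⟩ := h2 o o' x y hoo hy
      rw [← h1, ← hueq, rho_apply, pinv]
    have huoff : ∀ x y, x ≠ y → u x y = u o o' := by
      intro x y hxy
      obtain ⟨h, h1, h2⟩ := h2 o o' x y hoo hxy
      rw [← h1, ← h2, ← hueq, rho_apply, pinv]
    have hab : u o o = u o o' := by
      by_contra hab
      have h1 : u o - u o' = (u o o - u o o') • (Pi.single o 1 - Pi.single o' 1 : D → ZMod p) := by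
        ext y
        rw [Pi.sub_apply, Pi.smul_apply, Pi.sub_apply, smul_eq_mul]
        by_cases hy : y = o
        · subst hy
          rw [huoff o' y (Ne.symm hoo)]
          simp [hoo]
        · by_cases hy' : y = o'
          · subst hy'
            rw [hudiag y]
            simp [hoo.symm]
          · rw [huoff o y (Ne.symm hy), huoff o' y (Ne.symm hy')]
            simp [hy, hy']
      have h2 : u o - u o' ∈ U := U.sub_mem (huU _) (huU _)
      rw [h1] at h2
      exact hdiff o o' hoo ((Submodule.smul_mem_iff _ (sub_ne_zero.2 hab)).1 h2)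
    have hucst : ∀ x y, u x y = u o o := by
      intro x y
      by_cases hxy : x = y
      · rw [hxy, hudiag]
      · rw [huoff x y hxy, hab]
    have hcst : ∀ f, f ∈ U → f ∈ consts D p := by
      intro f hf
      have h1 : f = ∑ x, f x • u x := by
        rw [← sub_eq_zero]
        apply hcap
        · exact U.sub_mem hf (U.sum_mem fun x _ => U.smul_mem _ (huU x))
        · have h3 : f - ∑ x, f x • u x = ∑ x, f x • g (Pi.single x 1) := by
            have h4 : f = ∑ x, f x • (Pi.single x 1 : D → ZMod p) := by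
              ext y
              simp [Finset.sum_apply, Pi.single_apply]
            conv_lhs => rw [h4]
            rw [← Finset.sum_sub_distrib]
            refine Finset.sum_congr rfl fun x _ => ?_
            have h5 : (∑ y, f y • (Pi.single y 1 : D → ZMod p)) x = f x := by rw [← h4]
            rw [h5, ← smul_sub]
            simp only [u]
            rw [sub_sub_cancel]
          rw [h3]
          exact U'.sum_mem fun x _ => U'.smul_mem _ (hg _)
      refine mem_consts.2 ⟨(∑ x, f x) * u o o, fun y => ?_⟩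
      rw [h1]
      rw [Finset.sum_apply]
      simp only [Pi.smul_apply, smul_eq_mul]
      rw [Finset.sum_congr rfl (fun x _ => by rw [hucst x y] : ∀ x ∈ Finset.univ, f x * u x y = f x * u o o),
        ← Finset.sum_mul, ← h1]
    refine ⟨?_, fun f hf => hcst f ((hcardo f).1 hf)⟩
    intro hdvd
    have hn : (Fintype.card D : ZMod p) = 0 := (ZMod.natCast_eq_zero_iff _ _).2 hdvd
    apply h1U'
    rw [hU'mem]
    intro f hf
    obtain ⟨c, hc⟩ := mem_consts.1 (hcst f hf)
    rw [Finset.sum_congr rfl (fun x _ => by rw [hc x] : ∀ x ∈ Finset.univ, (1 : ZMod p) * f x = 1 * c),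
      Finset.sum_const, Finset.card_univ, nsmul_eq_mul, hn, zero_mul]

end

end Pool.Agent.Lib.MP_79a223_al
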