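import Pool.Agent.Lib.MP_79a223_al.Defs2
import Pool.Agent.Lib.MP_79a223_al.Lin2
import Pool.Agent.Lib.MP_79a223_al.Lin3
import Pool.Agent.Lib.MP_79a223_al.Form

/-!
# Elementary abelian groups generated by a 2-transitive orbit which is small or with an invariant form
-/

open Equiv

namespace Pool.Agent.Lib.MP_79a223_al

lemma lin_total {H V D : Type} [Group H] [AddCommGroup V] [Finite V] [Fintype D] {p : ℕ} [Fact p.Prime]
    (hexp : ∀ v : V, p • v = 0) (σ : H →* Perm D) (ι : D → V) (hι : Function.Injective ι)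
    (L : H → (V →+ V)) (hLm : ∀ g h v, L (g * h) v = L g (L h v)) (hL1 : ∀ v, L 1 v = v)
    (hL : ∀ h d, L h (ι d) = ι (σ h d))
    (hgen : AddSubgroup.closure (Set.range ι) = ⊤) (hfix : ∀ v, (∀ h, L h v = v) → v = 0)
    (hirr : ∀ W : AddSubgroup V, (∀ h, ∀ w ∈ W, L h w ∈ W) → W = ⊥ ∨ W = ⊤)
    (hne : ∃ a b : D, a ≠ b) (h2 : ∀ a b c d : D, a ≠ b → c ≠ d → ∃ h, σ h a = c ∧ σ h b = d)
    (hcase : (∃ (d0 : D) (C : Type) (_ : AddCommGroup C) (χ : V →+ C), (∃ v, χ v ≠ 0) ∧
        ∀ h : H, σ h d0 = d0 → ∀ v, χ (L h v) = χ v) ∨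
      (∃ (C : Type) (_ : AddCommGroup C) (B : V → V → C), (∀ a b c, B (a + b) c = B a c + B b c) ∧
        (∀ a b c, B a (b + c) = B a b + B a c) ∧ (∃ a b, B a b ≠ 0) ∧ ∀ (h : H) a b, B (L h a) (L h b) = B a b) ∨
      ∃ m : ℕ, Nat.card V = p ^ m ∧ Fintype.card D ≤ 2 * m) :
    ¬ p ∣ Fintype.card D ∧ QuoIrreducible σ.range p ∧
      ∃ ε : V ≃ Quo D p, (∀ v w, ε (v + w) = ε v + ε w) ∧ ∀ (h : H) (v : V), ε (L h v) = act p (σ h) (ε v) := by
  classical
  let iM : Module (ZMod p) V := AddCommGroup.zmodModule (n := p) hexp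
  have hmain : ¬ p ∣ Fintype.card D ∧
      ∀ f, Fintype.linearCombination (ZMod p) ι f = 0 → f ∈ consts D p := by
    have hfun : (∃ (d0 : D) (C : Type) (_ : AddCommGroup C) (χ : V →+ C), (∃ v, χ v ≠ 0) ∧
        ∀ h : H, σ h d0 = d0 → ∀ v, χ (L h v) = χ v) →
        ¬ p ∣ Fintype.card D ∧ ∀ f, Fintype.linearCombination (ZMod p) ι f = 0 → f ∈ consts D p := by
      rintro ⟨d0, C, iC, χ, hχ0, hχ⟩
      obtain ⟨l, ⟨v0, hv0⟩, hl⟩ := functional_reduce (p := p) χ hχ0
      have htr : ∀ x, ∃ h, σ h d0 = x := by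
        intro x
        by_cases hx : d0 = x
        · exact ⟨1, by rw [map_one, Perm.one_apply, hx]⟩
        · obtain ⟨h, h1, -⟩ := h2 d0 x x d0 hx (Ne.symm hx)
          exact ⟨h, h1⟩
      choose g hg using htr
      refine ker_of_functional σ ι hι L hL hfix hirr hne h2
        (fun x => l ∘ₗ AddMonoidHom.toZModLinearMap p (L (g x)⁻¹)) ⟨d0, L (g d0) v0, ?_⟩ ?_
      · show l (L (g d0)⁻¹ (L (g d0) v0)) ≠ 0
        rw [← hLm, inv_mul_cancel, hL1]
        exact hv0
      · intro h x v
        show l (L (g (σ h x))⁻¹ (L h v)) = l (L (g x)⁻¹ v)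
        have h3 : L (g (σ h x))⁻¹ (L h v) = L ((g (σ h x))⁻¹ * h * g x) (L (g x)⁻¹ v) := by
          rw [← hLm, ← hLm]
          congr 1
          congr 1
          group
        rw [h3]
        apply hl
        apply hχ
        rw [map_mul, map_mul, Perm.mul_apply, Perm.mul_apply, hg, map_inv]
        exact Perm.inv_eq_iff_eq.2 (hg _).symm
    rcases hcase with hc | ⟨C, iC', B, hB1, hB2, ⟨a0, b0, hab0⟩, hB4⟩ | ⟨m, hm, hSm⟩
    · exact hfun hc
    · apply hfun
      obtain ⟨d0, hd0⟩ : ∃ d, B a0 (ι d) ≠ 0 := by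
        by_contra hcon
        push Not at hcon
        apply hab0
        have hz : B a0 0 = 0 := by
          have := hB2 a0 0 0
          rw [add_zero] at this
          exact left_eq_add.1 this
        have h4 : b0 ∈ AddSubgroup.closure (Set.range ι) := by rw [hgen]; exact AddSubgroup.mem_top _
        induction h4 using AddSubgroup.closure_induction with
        | mem x hx =>
          obtain ⟨d, rfl⟩ := hx
          exact hcon d
        | zero => exact hz
        | add x y _ _ hx hy =>
          rw [hB2]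
          by_cases h5 : B a0 x = 0
          · by_cases h6 : B a0 y = 0
            · rw [h5, h6, add_zero]
            · exact absurd (hy h6) h6
          · exact absurd (hx h5) h5
        | neg x _ hx =>
          have h5 : B a0 (x + -x) = B a0 x + B a0 (-x) := hB2 _ _ _
          by_cases h6 : B a0 x = 0
          · rw [add_neg_cancel, hz, h6, zero_add] at h5
            exact h5.symm
          · exact absurd (hx h6) h6
      exact ⟨d0, C, iC', AddMonoidHom.mk' (fun v => B v (ι d0)) (fun a b => hB1 a b _), ⟨a0, hd0⟩, fun h hh v => by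
        have := hB4 h v (ι d0)
        rw [hL, hh] at this
        exact this⟩
    · have hfin : Module.Finite (ZMod p) V := Module.Finite.of_finite
      have hcard : Nat.card V = p ^ Module.finrank (ZMod p) V := by
        rw [Module.natCard_eq_pow_finrank (K := ZMod p), Nat.card_zmod]
      have hmf : m = Module.finrank (ZMod p) V := by
        apply Nat.pow_right_injective (Fact.out : p.Prime).two_le
        show p ^ m = p ^ _
        rw [← hcard, ← hm]
      exact ker_of_small σ ι hι L hL hgen hfix hirr hne h2 (by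
        rw [← hmf]
        exact hSm)
  obtain ⟨ε, hε1, hε2⟩ := lin_iso σ ι L hL hgen hfix hmain.2
  refine ⟨hmain.1, ?_, ε, hε1, hε2⟩
  intro W hW
  have hε0 : ε 0 = 0 := by
    have := hε1 0 0
    rw [add_zero] at this
    exact left_eq_add.1 this
  have hεn : ∀ v, ε (-v) = -ε v := by
    intro v
    rw [eq_neg_iff_add_eq_zero, ← hε1, neg_add_cancel, hε0]
  let W' : AddSubgroup V :=
    { carrier := {v | ε v ∈ W}
      add_mem' := by
        intro a b ha hb
        show ε (a + b) ∈ W
        rw [hε1]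
        exact W.add_mem ha hb
      zero_mem' := by
        show ε 0 ∈ W
        rw [hε0]
        exact W.zero_mem
      neg_mem' := by
        intro a ha
        show ε (-a) ∈ W
        rw [hεn]
        exact W.neg_mem ha }
  rcases hirr W' (by
    intro h v hv
    show ε (L h v) ∈ W
    rw [hε2]
    exact hW _ ⟨h, rfl⟩ _ hv) with h | h
  · left
    rw [eq_bot_iff]
    intro v hv
    have h8 : ε.symm v ∈ W' := by
      show ε (ε.symm v) ∈ W
      rwa [Equiv.apply_symm_apply]
    rw [h, AddSubgroup.mem_bot] at h8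
    rw [AddSubgroup.mem_bot, ← ε.apply_symm_apply v, h8, hε0]
  · right
    rw [eq_top_iff]
    intro v _
    have h8 : ε.symm v ∈ W' := by rw [h]; exact AddSubgroup.mem_top _
    have h9 : ε (ε.symm v) ∈ W := h8
    rwa [Equiv.apply_symm_apply] at h9

end Pool.Agent.Lib.MP_79a223_al
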