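import Pool.Agent.Lib.MP_79a223_al.Fwd
import Pool.Agent.Lib.MP_79a223_al.Lin4

/-!
# Irreducible actions on finite groups with a 2-transitive orbit which is small or with an invariant form
-/

open Equiv Pointwise
open scoped commutatorElement

namespace Pool.Agent.Lib.MP_79a223_al

/-- the abstract form of the classification: small orbit or invariant form -/
theorem classify2 {H N : Type} [Group H] [Group N] [MulDistribMulAction H N] [Finite N]
    (hfaith : ∀ h : H, (∀ n : N, h • n = n) → h = 1)
    (hirr : ∀ M : Subgroup N, (∀ h : H, ∀ m ∈ M, h • m ∈ M) → M = ⊥ ∨ M = ⊤)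
    (S : Set N) (h1 : (1 : N) ∉ S) (hxy : ∃ x ∈ S, ∃ y ∈ S, x ≠ y) (hS : ∀ h : H, ∀ x ∈ S, h • x ∈ S)
    (h2 : ∀ x ∈ S, ∀ y ∈ S, ∀ z ∈ S, ∀ w ∈ S, x ≠ y → z ≠ w → ∃ h : H, h • x = z ∧ h • y = w)
    (hcase : (∃ x ∈ S, ∃ (C : Type) (_ : CommGroup C) (χ : N →* C), χ ≠ 1 ∧
        ∀ h : H, h • x = x → ∀ a, χ (h • a) = χ a) ∨
      (∃ (C : Type) (_ : CommGroup C) (B : N → N → C), (∀ a b c, B (a * b) c = B a c * B b c) ∧
        (∀ a b c, B a (b * c) = B a b * B a c) ∧ (∃ a b, B a b ≠ 1) ∧ ∀ (h : H) a b, B (h • a) (h • b) = B a b) ∨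
      ∃ p m : ℕ, p.Prime ∧ Nat.card N = p ^ m ∧ Nat.card S ≤ 2 * m) :
    ∃ (D : Type) (_ : Fintype D) (σ : H →* Perm D) (p : ℕ), p.Prime ∧ ¬ p ∣ Fintype.card D ∧
      Nat.card S = Fintype.card D ∧ TwoTransitive σ.range ∧ QuoIrreducible σ.range p ∧
      ∃ e : N ≃ Quo D p, (∀ m n, e (m * n) = e m + e n) ∧ ∀ (h : H) (n : N), e (h • n) = act p (σ h) (e n) := by
  classical
  have : Fintype S := Fintype.ofFinite S
  obtain ⟨x0, hx0, y0, hy0, hxy0⟩ := hxy
  have hnt : Nontrivial N := ⟨x0, y0, hxy0⟩
  set σ : H →* Perm S := resPerm S hS with hσ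
  have hcl : Subgroup.closure S = ⊤ := by
    rcases hirr (Subgroup.closure S) (by
      intro h m hm
      have h3 : (Subgroup.closure S) ≤ (Subgroup.closure S).comap (MulDistribMulAction.toMonoidHom N h) := by
        rw [Subgroup.closure_le]
        intro x hx
        exact Subgroup.subset_closure (hS h x hx)
      exact h3 hm) with h | h
    · exfalso
      have : x0 ∈ Subgroup.closure S := Subgroup.subset_closure hx0
      rw [h, Subgroup.mem_bot] at this
      exact h1 (this ▸ hx0)
    · exact h
  have h2t : ∀ a b c d : S, a ≠ b → c ≠ d → ∃ s, σ s a = c ∧ σ s b = d := by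
    intro a b c d hab hcd
    obtain ⟨h, hh1, hh2⟩ := h2 a a.2 b b.2 c c.2 d d.2 (fun h => hab (Subtype.ext h)) (fun h => hcd (Subtype.ext h))
    exact ⟨h, Subtype.ext hh1, Subtype.ext hh2⟩
  have hneS : ∃ a b : S, a ≠ b := ⟨⟨x0, hx0⟩, ⟨y0, hy0⟩, fun h => hxy0 (congrArg Subtype.val h)⟩
  have h2r : TwoTransitive σ.range := by
    refine ⟨hneS, ?_⟩
    intro a b c d hab hcd
    obtain ⟨s, hs1, hs2⟩ := h2t a b c d hab hcd
    exact ⟨σ s, ⟨s, rfl⟩, hs1, hs2⟩
  have hHne : (⊤ : Subgroup H) ≠ ⊥ := by
    intro h
    obtain ⟨s, hs1, -⟩ := h2 x0 hx0 y0 hy0 y0 hy0 x0 hx0 hxy0 hxy0.symm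
    have : s ∈ (⊤ : Subgroup H) := Subgroup.mem_top s
    rw [h, Subgroup.mem_bot] at this
    rw [this, one_smul] at hs1
    exact hxy0 hs1
  have hfix : ∀ n : N, (∀ h : H, h • n = n) → n = 1 := fun n hn =>
    fixed_trivial hfaith hirr ⊤ inferInstance hHne n fun a _ => hn a
  -- elementary abelian
  obtain ⟨p, hp, hcomm, hexp, hcase'⟩ : ∃ p : ℕ, p.Prime ∧ (∀ a b : N, a * b = b * a) ∧ (∀ a : N, a ^ p = 1) ∧
      ((∃ x ∈ S, ∃ (C : Type) (_ : CommGroup C) (χ : N →* C), χ ≠ 1 ∧
        ∀ h : H, h • x = x → ∀ a, χ (h • a) = χ a) ∨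
      (∃ (C : Type) (_ : CommGroup C) (B : N → N → C), (∀ a b c, B (a * b) c = B a c * B b c) ∧
        (∀ a b c, B a (b * c) = B a b * B a c) ∧ (∃ a b, B a b ≠ 1) ∧ ∀ (h : H) a b, B (h • a) (h • b) = B a b) ∨
      ∃ m : ℕ, Nat.card N = p ^ m ∧ Nat.card S ≤ 2 * m) := by
    have hexpo : (∀ a b : N, a * b = b * a) → ∃ p : ℕ, p.Prime ∧ ∀ a : N, a ^ p = 1 := by
      intro hcomm
      obtain ⟨p, hp, hpN⟩ := Nat.exists_prime_and_dvd (Finite.one_lt_card (α := N)).ne'
      have : Fact p.Prime := ⟨hp⟩
      refine ⟨p, hp, ?_⟩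
      let M : Subgroup N :=
        { carrier := {n | n ^ p = 1}
          mul_mem' := by
            intro x y hx hy
            have : (x * y) ^ p = x ^ p * y ^ p := Commute.mul_pow (hcomm x y) p
            rw [Set.mem_ofPred_eq] at hx hy ⊢
            rw [this, hx, hy, one_mul]
          one_mem' := one_pow p
          inv_mem' := by
            intro x hx
            rw [Set.mem_ofPred_eq] at hx ⊢
            rw [inv_pow, hx, inv_one] }
      rcases hirr M (by
        intro h m hm
        show (h • m) ^ p = 1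
        rw [← smul_pow', show m ^ p = 1 from hm, smul_one]) with h | h
      · exfalso
        obtain ⟨x, hx⟩ := exists_prime_orderOf_dvd_card' p hpN
        have h2 : x ∈ M := by
          show x ^ p = 1
          rw [← hx, pow_orderOf_eq_one]
        rw [h, Subgroup.mem_bot] at h2
        rw [h2, orderOf_one] at hx
        exact hp.one_lt.ne hx
      · intro a
        have : a ∈ M := by rw [h]; exact Subgroup.mem_top a
        exact this
    rcases hcase with ⟨x, hx, C, iC, χ, hχ0, hχ⟩ | ⟨C, iC, B, hB1, hB2, hB3, hB4⟩ | ⟨p, m, hp, hm, hS⟩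
    · have hcomm : ∀ a b : N, a * b = b * a := by
        rcases hirr (commutator N) (by
          intro h m hm
          have h3 := Subgroup.characteristic_iff_map_le.1 (inferInstance : (commutator N).Characteristic)
            (MulDistribMulAction.toMulEquiv N h)
          exact h3 ⟨m, hm, rfl⟩) with h | h
        · intro a b
          have h3 : ⁅a, b⁆ ∈ commutator N :=
            Subgroup.commutator_mem_commutator (Subgroup.mem_top a) (Subgroup.mem_top b)
          rw [h, Subgroup.mem_bot] at h3
          exact commutatorElement_eq_one_iff_mul_comm.1 h3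
        · exfalso
          apply hχ0
          ext a
          have h3 : a ∈ commutator N := by rw [h]; exact Subgroup.mem_top a
          exact Abelianization.commutator_subset_ker χ h3
      obtain ⟨p, hp, hexp⟩ := hexpo hcomm
      exact ⟨p, hp, hcomm, hexp, Or.inl ⟨x, hx, C, iC, χ, hχ0, hχ⟩⟩
    · have hB1' : ∀ c, B 1 c = 1 := by
        intro c
        have := hB1 1 1 c
        rw [mul_one] at this
        exact left_eq_mul.1 this
      have hBinv : ∀ a c, B a⁻¹ c = (B a c)⁻¹ := by
        intro a c
        rw [eq_inv_iff_mul_eq_one, ← hB1, inv_mul_cancel, hB1']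
      have hcomm : ∀ a b : N, a * b = b * a := by
        let R : Subgroup N :=
          { carrier := {v | ∀ w, B v w = 1}
            mul_mem' := by
              intro v v' hv hv' w
              rw [hB1, hv, hv', one_mul]
            one_mem' := hB1'
            inv_mem' := by
              intro v hv w
              rw [hBinv, hv, inv_one] }
        have hRmem : ∀ v, v ∈ R ↔ ∀ w, B v w = 1 := fun v => Iff.rfl
        rcases hirr R (by
          intro h v hv w
          have := hB4 h v (h⁻¹ • w)
          rw [smul_inv_smul] at this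
          rw [this]
          exact hv _) with h | h
        · intro a b
          have : a * b * a⁻¹ * b⁻¹ ∈ R := by
            intro w
            rw [hB1, hB1, hB1, hBinv, hBinv]
            rw [mul_inv_cancel_comm, mul_inv_cancel]
          rw [h, Subgroup.mem_bot, mul_inv_eq_one, mul_inv_eq_iff_eq_mul] at this
          exact this
        · exfalso
          obtain ⟨a, b, hab⟩ := hB3
          have : a ∈ R := by rw [h]; exact Subgroup.mem_top a
          exact hab (this b)
      obtain ⟨p, hp, hexp⟩ := hexpo hcomm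
      exact ⟨p, hp, hcomm, hexp, Or.inr (Or.inl ⟨C, iC, B, hB1, hB2, hB3, hB4⟩)⟩
    · have : Fact p.Prime := ⟨hp⟩
      obtain ⟨hc, he⟩ := elementary hirr p (IsPGroup.of_card hm)
      exact ⟨p, hp, hc, he, Or.inr (Or.inr ⟨m, hm, hS⟩)⟩
  have : Fact p.Prime := ⟨hp⟩
  -- linear algebra
  let iC : AddCommGroup (Additive N) :=
    { (inferInstance : AddGroup (Additive N)) with
      add_comm := fun a b => congrArg Additive.ofMul (hcomm a.toMul b.toMul) }
  let L : H → (Additive N →+ Additive N) := fun h =>
    { toFun := fun v => Additive.ofMul (h • v.toMul)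
      map_zero' := congrArg Additive.ofMul (smul_one h)
      map_add' := fun a b => congrArg Additive.ofMul (smul_mul' h a.toMul b.toMul) }
  let ι : S → Additive N := fun d => Additive.ofMul d.1
  have hι : Function.Injective ι := fun a b hab => Subtype.ext (Additive.ofMul.injective hab)
  have hgen : AddSubgroup.closure (Set.range ι) = ⊤ := by
    rw [eq_top_iff]
    intro v _
    have h4 : v.toMul ∈ Subgroup.closure S := by rw [hcl]; exact Subgroup.mem_top _
    have h5 : ∀ n ∈ Subgroup.closure S, Additive.ofMul n ∈ AddSubgroup.closure (Set.range ι) := by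
      intro n hn
      induction hn using Subgroup.closure_induction with
      | mem x hx => exact AddSubgroup.subset_closure ⟨⟨x, hx⟩, rfl⟩
      | one => exact AddSubgroup.zero_mem _
      | mul x y _ _ hx hy => exact AddSubgroup.add_mem _ hx hy
      | inv x _ hx => exact AddSubgroup.neg_mem _ hx
    exact h5 _ h4
  have hfixA : ∀ v : Additive N, (∀ h, L h v = v) → v = 0 := by
    intro v hv
    have h7 := hfix v.toMul (fun a => congrArg Additive.toMul (hv a))
    exact congrArg Additive.ofMul h7
  have hirrA : ∀ W : AddSubgroup (Additive N), (∀ h, ∀ w ∈ W, L h w ∈ W) → W = ⊥ ∨ W = ⊤ := by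
    intro W hW
    let M : Subgroup N :=
      { carrier := {n | Additive.ofMul n ∈ W}
        mul_mem' := fun {a b} ha hb => W.add_mem ha hb
        one_mem' := W.zero_mem
        inv_mem' := fun {a} ha => W.neg_mem ha }
    rcases hirr M (fun h m hm => hW h _ hm) with h | h
    · left
      rw [eq_bot_iff]
      intro v hv
      have h8 : v.toMul ∈ M := hv
      rw [h, Subgroup.mem_bot] at h8
      exact AddSubgroup.mem_bot.2 (congrArg Additive.ofMul h8)
    · right
      rw [eq_top_iff]
      intro v _
      have h8 : v.toMul ∈ M := by rw [h]; exact Subgroup.mem_top _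
      exact h8
  obtain ⟨hpS, hqi, ε, hε1, hε2⟩ := lin_total (V := Additive N) (p := p) (fun v => by
      have := hexp v.toMul
      exact congrArg Additive.ofMul this) σ ι hι L (fun g h v => congrArg Additive.ofMul (mul_smul g h v.toMul))
    (fun v => congrArg Additive.ofMul (one_smul H v.toMul)) (fun h d => rfl) hgen hfixA hirrA hneS h2t (by
      rcases hcase' with ⟨x, hx, C, iC', χ, hχ0, hχ⟩ | ⟨C, iC', B, hB1, hB2, hB3, hB4⟩ | ⟨m, hm, hSm⟩
      · left
        refine ⟨⟨x, hx⟩, Additive C, inferInstance,
          { toFun := fun v => Additive.ofMul (χ v.toMul)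
            map_zero' := congrArg Additive.ofMul (map_one χ)
            map_add' := fun a b => congrArg Additive.ofMul (map_mul χ a.toMul b.toMul) }, ?_, ?_⟩
        · by_contra hcon
          push Not at hcon
          apply hχ0
          ext a
          exact Additive.ofMul.injective (hcon (Additive.ofMul a))
        · intro h hh v
          exact congrArg Additive.ofMul (hχ h (congrArg Subtype.val hh) v.toMul)
      · right
        left
        exact ⟨Additive C, inferInstance, fun a b => Additive.ofMul (B a.toMul b.toMul),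
          fun a b c => congrArg Additive.ofMul (hB1 _ _ _), fun a b c => congrArg Additive.ofMul (hB2 _ _ _), by
            obtain ⟨a, b, hab⟩ := hB3
            exact ⟨Additive.ofMul a, Additive.ofMul b, fun h => hab (Additive.ofMul.injective h)⟩,
          fun h a b => congrArg Additive.ofMul (hB4 h _ _)⟩
      · right
        right
        refine ⟨m, hm, ?_⟩
        rw [← Nat.card_eq_fintype_card]
        exact hSm)
  exact ⟨S, inferInstance, σ, p, hp, hpS, Nat.card_eq_fintype_card, h2r, hqi, Additive.ofMul.trans ε,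
    fun m n => hε1 _ _, fun h n => hε2 h _⟩

end Pool.Agent.Lib.MP_79a223_al
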