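import Pool.Agent.Lib.MP_79a223_al.Core

/-!
# Elementary abelian groups generated by an affine 2-transitive orbit
-/

open Equiv

namespace Pool.Agent.Lib.MP_79a223_al

/-- an elementary abelian group generated by an orbit on which the group acts as a 2-transitive group with a soluble
normal subgroup, without nontrivial fixed points, is the permutation module modulo the constants -/
lemma linear_part {H V D : Type} [Group H] [AddCommGroup V] [Fintype D] {p : ℕ} [Fact p.Prime]
    (hp : ¬ p ∣ Fintype.card D) (hexp : ∀ v : V, p • v = 0) (σ : H →* Perm D) (ι : D → V)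
    (hι : Function.Injective ι) (L : H → (V →+ V)) (hL : ∀ h d, L h (ι d) = ι (σ h d))
    (hgen : AddSubgroup.closure (Set.range ι) = ⊤) (hfix : ∀ v, (∀ h, L h v = v) → v = 0)
    (h2 : TwoTransitive σ.range) (hs : HasSolubleNormal σ.range) :
    ∃ ε : V ≃ Quo D p, (∀ v w, ε (v + w) = ε v + ε w) ∧ ∀ (h : H) (v : V), ε (L h v) = act p (σ h) (ε v) := by
  classical
  let iM : Module (ZMod p) V := AddCommGroup.zmodModule (n := p) hexp
  let ψ : (D → ZMod p) →ₗ[ZMod p] V := Fintype.linearCombination (ZMod p) ι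
  have hψs : ∀ (d : D) (c : ZMod p), ψ (Pi.single d c) = c • ι d := by
    intro d c
    exact Fintype.linearCombination_apply_single (ZMod p) _ d c
  have heq : ∀ h f, ψ (rho p (σ h) f) = L h (ψ f) := by
    intro h f
    have : ψ ∘ₗ rho p (σ h) = AddMonoidHom.toZModLinearMap p (L h) ∘ₗ ψ := by
      apply LinearMap.pi_ext
      intro d c
      rw [LinearMap.comp_apply, LinearMap.comp_apply, rho_single, hψs, hψs, map_smul,
        AddMonoidHom.coe_toZModLinearMap, hL]
    exact LinearMap.congr_fun this f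
  have hsurj : Function.Surjective ψ := by
    intro v
    have h4 : v ∈ AddSubgroup.closure (Set.range ι) := by rw [hgen]; exact AddSubgroup.mem_top _
    induction h4 using AddSubgroup.closure_induction with
    | mem x hx =>
      obtain ⟨d, rfl⟩ := hx
      exact ⟨Pi.single d 1, by rw [hψs, one_smul]⟩
    | zero => exact ⟨0, map_zero _⟩
    | add x y _ _ hx hy =>
      obtain ⟨f, hf⟩ := hx
      obtain ⟨g, hg⟩ := hy
      exact ⟨f + g, by rw [map_add, hf, hg]⟩
    | neg x _ hx =>
      obtain ⟨f, hf⟩ := hx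
      exact ⟨-f, by rw [map_neg, hf]⟩
  have hker : LinearMap.ker ψ ≤ consts D p := by
    rcases invariant_submodule hp σ.range h2 hs (LinearMap.ker ψ) (by
      rintro _ ⟨h, rfl⟩ f hf
      rw [LinearMap.mem_ker] at hf ⊢
      rw [heq, hf, map_zero]) with h | h
    · exact h
    · exfalso
      obtain ⟨x, y, hxy⟩ := h2.1
      have h4 := h (Pi.single x 1 - Pi.single y 1) (by
        simp [Finset.sum_sub_distrib, Pi.single_apply])
      rw [LinearMap.mem_ker, map_sub, hψs, hψs, one_smul, one_smul, sub_eq_zero] at h4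
      exact hxy (hι h4)
  have hone : ψ (fun _ => 1) = 0 := by
    apply hfix
    intro h
    have h5 := heq h (fun _ => 1)
    have h6 : rho p (σ h) (fun _ => (1 : ZMod p)) = fun _ => 1 := rfl
    rw [h6] at h5
    exact h5.symm
  have hle : consts D p ≤ LinearMap.ker ψ := by
    rw [consts, Submodule.span_le, Set.singleton_subset_iff]
    exact hone
  let ℓ : Quo D p →ₗ[ZMod p] V := (consts D p).liftQ ψ hle
  have hℓ : ∀ f, ℓ (Submodule.Quotient.mk f) = ψ f := fun f => rfl
  have hℓb : Function.Bijective ℓ := by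
    constructor
    · rw [injective_iff_map_eq_zero]
      intro v hv
      obtain ⟨f, rfl⟩ := Submodule.Quotient.mk_surjective _ v
      rw [hℓ] at hv
      rw [Submodule.Quotient.mk_eq_zero]
      exact hker hv
    · intro v
      obtain ⟨f, hf⟩ := hsurj v
      exact ⟨Submodule.Quotient.mk f, hf⟩
  have hℓa : ∀ h v, ℓ (act p (σ h) v) = L h (ℓ v) := by
    intro h v
    obtain ⟨f, rfl⟩ := Submodule.Quotient.mk_surjective _ v
    rw [act_mk, hℓ, hℓ, heq]
  let ε : V ≃ Quo D p := (Equiv.ofBijective ℓ hℓb).symm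
  have hε : ∀ n, ℓ (ε n) = n := fun n => Equiv.ofBijective_apply_symm_apply ℓ hℓb _
  refine ⟨ε, ?_, ?_⟩
  · intro m n
    apply hℓb.1
    rw [hε, map_add ℓ, hε, hε]
  · intro h n
    apply hℓb.1
    rw [hε, hℓa, hε]

end Pool.Agent.Lib.MP_79a223_al
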