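import Pool.Agent.Lib.MP_79a223_al.Mod

/-!
# The quotient of the permutation module by the constants
-/

open Equiv

namespace Pool.Agent.Lib.MP_79a223_al

variable {D : Type} {p : ℕ}

lemma act_mk (s : Perm D) (f : D → ZMod p) :
    act p s (Submodule.Quotient.mk f) = Submodule.Quotient.mk (rho p s f) := rfl

lemma act_mul (s t : Perm D) (v : Quo D p) : act p (s * t) v = act p s (act p t v) := by
  obtain ⟨f, rfl⟩ := Submodule.Quotient.mk_surjective _ v
  rw [act_mk, act_mk, act_mk, rho_mul]

lemma act_one (v : Quo D p) : act p (1 : Perm D) v = v := by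
  obtain ⟨f, rfl⟩ := Submodule.Quotient.mk_surjective _ v
  rw [act_mk, rho_one]

lemma act_inv_self (s : Perm D) (v : Quo D p) : act p s⁻¹ (act p s v) = v := by
  rw [← act_mul, inv_mul_cancel, act_one]

lemma act_self_inv (s : Perm D) (v : Quo D p) : act p s (act p s⁻¹ v) = v := by
  rw [← act_mul, mul_inv_cancel, act_one]

/-- the class of a basis vector -/
noncomputable def cls (p : ℕ) (d : D) : Quo D p :=
  open scoped Classical in Submodule.Quotient.mk (Pi.single d 1)

lemma act_cls (s : Perm D) (d : D) : act p s (cls p d) = cls p (s d) := by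
  classical
  rw [cls, act_mk, cls]
  congr 1
  exact rho_single s d 1

lemma cls_inj [Fintype D] [Fact p.Prime] (hp : ¬ p ∣ Fintype.card D) {a b : D} (h : cls p a = cls p b) : a = b := by
  classical
  rw [cls, cls, Submodule.Quotient.eq] at h
  obtain ⟨c, hc⟩ := mem_consts.1 h
  have hn : (Fintype.card D : ZMod p) ≠ 0 := by
    rwa [Ne, ZMod.natCast_eq_zero_iff]
  have hsum : ∑ x, (Pi.single a 1 - Pi.single b 1 : D → ZMod p) x = Fintype.card D * c := by
    rw [Finset.sum_congr rfl (fun x _ => hc x), Finset.sum_const, Finset.card_univ, nsmul_eq_mul]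
  have h0 : ∑ x, (Pi.single a 1 - Pi.single b 1 : D → ZMod p) x = 0 := by
    simp [Finset.sum_sub_distrib, Pi.single_apply]
  rw [h0] at hsum
  have hc0 : c = 0 := by
    rcases mul_eq_zero.1 hsum.symm with h | h
    · exact absurd h hn
    · exact h
  have h1 := hc a
  rw [hc0] at h1
  by_contra hab
  simp [hab] at h1

lemma cls_ne_zero [Fact p.Prime] (h : ∃ a b : D, a ≠ b) (d : D) : cls p d ≠ 0 := by
  classical
  intro h0
  rw [cls, Submodule.Quotient.mk_eq_zero] at h0
  obtain ⟨c, hc⟩ := mem_consts.1 h0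
  obtain ⟨x, hx⟩ : ∃ x, x ≠ d := by
    obtain ⟨a, b, hab⟩ := h
    by_cases ha : a = d
    · exact ⟨b, fun hb => hab (ha.trans hb.symm)⟩
    · exact ⟨a, ha⟩
  have h1 := hc x
  have h2 := hc d
  simp only [Pi.single_apply, if_neg hx, if_pos] at h1 h2
  rw [← h1] at h2
  exact one_ne_zero h2

lemma act_faithful [Fintype D] [Fact p.Prime] (hp : ¬ p ∣ Fintype.card D) {s : Perm D} (h : ∀ v : Quo D p, act p s v = v) :
    s = 1 := by
  ext d
  have := h (cls p d)
  rw [act_cls] at this
  simpa using cls_inj hp this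

/-- the quotient of the permutation module of an affine 2-transitive group by the constants is irreducible -/
lemma quo_irreducible [Fintype D] [Fact p.Prime] (hp : ¬ p ∣ Fintype.card D) (H : Subgroup (Perm D)) (h2 : TwoTransitive H)
    (hs : HasSolubleNormal H) (W : AddSubgroup (Quo D p)) (hW : ∀ s ∈ H, ∀ w ∈ W, act p s w ∈ W) : W = ⊥ ∨ W = ⊤ := by
  classical
  have hn : (Fintype.card D : ZMod p) ≠ 0 := by
    rwa [Ne, ZMod.natCast_eq_zero_iff]
  let W' : Submodule (ZMod p) (Quo D p) := AddSubgroup.toZModSubmodule p W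
  have hW' : ∀ v, v ∈ W' ↔ v ∈ W := fun v => Iff.rfl
  rcases invariant_submodule hp H h2 hs (W'.comap (consts D p).mkQ) (by
    intro s hs f hf
    rw [Submodule.mem_comap, Submodule.mkQ_apply, hW'] at hf ⊢
    exact hW s hs _ hf) with h | h
  · left
    rw [eq_bot_iff]
    intro v hv
    obtain ⟨f, rfl⟩ := Submodule.Quotient.mk_surjective _ v
    have : f ∈ consts D p := h hv
    rw [AddSubgroup.mem_bot, Submodule.Quotient.mk_eq_zero]
    exact this
  · right
    rw [eq_top_iff]
    intro v _
    obtain ⟨f, rfl⟩ := Submodule.Quotient.mk_surjective _ v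
    set c : ZMod p := (Fintype.card D : ZMod p)⁻¹ * ∑ x, f x with hc
    have h1 : (fun x => f x - c) ∈ W'.comap (consts D p).mkQ := by
      apply h
      rw [Finset.sum_sub_distrib, Finset.sum_const, Finset.card_univ, nsmul_eq_mul, hc, ← mul_assoc, mul_inv_cancel₀ hn,
        one_mul, sub_self]
    rw [Submodule.mem_comap, Submodule.mkQ_apply, hW'] at h1
    have h2 : (Submodule.Quotient.mk f : Quo D p) = Submodule.Quotient.mk (fun x => f x - c) := by
      rw [Submodule.Quotient.eq]
      exact mem_consts.2 ⟨c, fun x => by simp⟩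
    rw [h2]
    exact h1

end Pool.Agent.Lib.MP_79a223_al
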